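import Mathlib

/-!
# A perfect evolution algebra over `ℂ` has a nonzero idempotent

For an invertible complex matrix `A` the system `∑ i, ξ i ^ 2 * A i k = ξ k` has a nonzero solution.
-/

set_option autoImplicit false

namespace Pool.Agent.Q11.Evo

open MvPolynomial

lemma ideal_step {R : Type*} [CommRing R] (M I : Ideal R) (h2 : M ≤ I ⊔ M ^ 2) :
    ∀ n : ℕ, M ≤ I ⊔ M ^ (n + 1) := by
  intro n
  induction n with
  | zero => rw [zero_add, pow_one]; exact le_sup_right
  | succ n ih =>
    have e1 : M ^ (n + 1) ≤ I ⊔ M ^ (n + 1 + 1) := by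
      have e2 : M ^ (n + 1) = M * M ^ n := pow_succ' M n
      have e3 : M ^ 2 * M ^ n = M ^ (n + 1 + 1) := by rw [← pow_add]; congr 1; ring
      rw [e2]
      refine (Ideal.mul_mono_left h2).trans ?_
      have e4 : I * M ^ n ≤ I := Ideal.mul_le_left
      rw [Ideal.sup_mul, e3]
      exact sup_le_sup_right e4 _
    have e5 : I ⊔ M ^ (n + 1) ≤ I ⊔ M ^ (n + 1 + 1) := sup_le le_sup_left e1
    exact le_trans ih e5

variable {σ : Type*} [Fintype σ] [DecidableEq σ]

/-- Linear forms. -/
noncomputable def lin (B : Matrix σ σ ℂ) (i : σ) : MvPolynomial σ ℂ := ∑ k, C (B k i) * X k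

omit [DecidableEq σ] in
lemma totalDegree_lin (B : Matrix σ σ ℂ) (i : σ) : (lin B i).totalDegree ≤ 1 := by
  refine (totalDegree_finsetSum _ _).trans (Finset.sup_le fun k _ => ?_)
  refine (totalDegree_mul _ _).trans ?_
  rw [totalDegree_C, totalDegree_X]

/-- The product of powers of the linear forms. -/
noncomputable def linPow (B : Matrix σ σ ℂ) (m : σ → ℕ) : MvPolynomial σ ℂ := ∏ i, lin B i ^ m i

omit [DecidableEq σ] in
lemma totalDegree_linPow (B : Matrix σ σ ℂ) (m : σ → ℕ) : (linPow B m).totalDegree ≤ ∑ i, m i := by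
  refine (totalDegree_finsetProd _ _).trans (Finset.sum_le_sum fun i _ => ?_)
  refine (totalDegree_pow _ _).trans ?_
  calc m i * (lin B i).totalDegree ≤ m i * 1 := Nat.mul_le_mul_left _ (totalDegree_lin B i)
    _ = m i := mul_one _

/-- The exponent `2 m + 1`. -/
noncomputable def ex (m : σ → ℕ) : σ →₀ ℕ := Finsupp.equivFunOnFinite.symm fun i => 2 * m i + 1

omit [DecidableEq σ] in
lemma ex_apply (m : σ → ℕ) (i : σ) : ex m i = 2 * m i + 1 := rfl

/-- The residue functional, truncated. -/
noncomputable def tau (B : Matrix σ σ ℂ) (N : ℕ) (f : MvPolynomial σ ℂ) : ℂ :=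
  ∑ m ∈ Fintype.piFinset fun _ : σ => Finset.range N, coeff (ex m) (f * linPow B m)

lemma tau_add (B : Matrix σ σ ℂ) (N : ℕ) (f g : MvPolynomial σ ℂ) :
    tau B N (f + g) = tau B N f + tau B N g := by
  simp only [tau, add_mul, coeff_add, Finset.sum_add_distrib]

lemma tau_sub (B : Matrix σ σ ℂ) (N : ℕ) (f g : MvPolynomial σ ℂ) :
    tau B N (f - g) = tau B N f - tau B N g := by
  simp only [tau, sub_mul, coeff_sub, Finset.sum_sub_distrib]

lemma tau_zero (B : Matrix σ σ ℂ) (N : ℕ) : tau B N 0 = 0 := by
  simp [tau]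

lemma tau_sum {ι : Type*} (s : Finset ι) (B : Matrix σ σ ℂ) (N : ℕ) (f : ι → MvPolynomial σ ℂ) :
    tau B N (∑ i ∈ s, f i) = ∑ i ∈ s, tau B N (f i) := by
  classical
  induction s using Finset.induction_on with
  | empty => simp [tau_zero]
  | insert a s ha ih => rw [Finset.sum_insert ha, Finset.sum_insert ha, tau_add, ih]

omit [DecidableEq σ] in
lemma coeff_vanish (B : Matrix σ σ ℂ) (m : σ → ℕ) (f : MvPolynomial σ ℂ)
    (h : f.totalDegree < ∑ i, m i + Fintype.card σ) : coeff (ex m) (f * linPow B m) = 0 := by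
  apply coeff_eq_zero_of_totalDegree_lt
  have h1 : (f * linPow B m).totalDegree ≤ f.totalDegree + ∑ i, m i :=
    (totalDegree_mul _ _).trans (Nat.add_le_add_left (totalDegree_linPow B m) _)
  have h2 : ∑ i ∈ (ex m).support, ex m i = ∑ i, (2 * m i + 1) := by
    refine Finset.sum_subset (Finset.subset_univ _) ?_
    intro i _ hi
    rwa [Finsupp.notMem_support_iff] at hi
  have h3 : ∑ i, (2 * m i + 1) = ∑ i, m i + ∑ i, m i + Fintype.card σ := by
    rw [Finset.sum_add_distrib, ← Finset.mul_sum, Finset.sum_const, Finset.card_univ]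
    simp; ring
  rw [h2, h3]
  omega

lemma linPow_update (B : Matrix σ σ ℂ) (m : σ → ℕ) (i : σ) :
    linPow B (Function.update m i (m i + 1)) = lin B i * linPow B m := by
  rw [linPow, linPow]
  rw [← Finset.mul_prod_erase Finset.univ _ (Finset.mem_univ i),
    ← Finset.mul_prod_erase Finset.univ (fun j => lin B j ^ m j) (Finset.mem_univ i)]
  rw [Function.update_self, pow_succ]
  have : ∏ j ∈ Finset.univ.erase i, lin B j ^ Function.update m i (m i + 1) j =
      ∏ j ∈ Finset.univ.erase i, lin B j ^ m j := by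
    refine Finset.prod_congr rfl fun j hj => ?_
    rw [Function.update_of_ne (Finset.ne_of_mem_erase hj)]
  rw [this]
  ring

lemma coeff_shift (B : Matrix σ σ ℂ) (m : σ → ℕ) (i : σ) (g : MvPolynomial σ ℂ) :
    coeff (ex (Function.update m i (m i + 1))) (X i ^ 2 * g * linPow B (Function.update m i (m i + 1))) =
      coeff (ex m) (lin B i * g * linPow B m) := by
  have hex : ex (Function.update m i (m i + 1)) = Finsupp.single i 2 + ex m := by
    ext j
    rw [ex_apply, Finsupp.add_apply, ex_apply]
    by_cases h : j = i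
    · subst h
      rw [Function.update_self, Finsupp.single_eq_same]; ring
    · rw [Function.update_of_ne h, Finsupp.single_apply, if_neg (Ne.symm h), zero_add]
  rw [hex, linPow_update]
  have : X i ^ 2 * g * (lin B i * linPow B m) =
      monomial (Finsupp.single i 2) (1 : ℂ) * (lin B i * g * linPow B m) := by
    rw [X_pow_eq_monomial]; ring
  rw [this, coeff_monomial_mul, one_mul]

omit [DecidableEq σ] in
lemma coeff_zero_of_zero (B : Matrix σ σ ℂ) (m : σ → ℕ) (i : σ) (hi : m i = 0)
    (g : MvPolynomial σ ℂ) : coeff (ex m) (X i ^ 2 * g * linPow B m) = 0 := by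
  have : X i ^ 2 * g * linPow B m = monomial (Finsupp.single i 2) (1 : ℂ) * (g * linPow B m) := by
    rw [X_pow_eq_monomial]; ring
  rw [this, coeff_monomial_mul', if_neg]
  intro h
  have := h i
  rw [Finsupp.single_eq_same, ex_apply, hi] at this
  omega

/-- The functional kills the multiples of `X i ^ 2 - lin B i`. -/
lemma tau_mul (B : Matrix σ σ ℂ) (N : ℕ) (i : σ) (g : MvPolynomial σ ℂ)
    (hN : g.totalDegree + 3 ≤ N) : tau B N ((X i ^ 2 - lin B i) * g) = 0 := by
  rw [sub_mul, tau_sub, sub_eq_zero, tau, tau]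
  have hl : ∑ m ∈ Fintype.piFinset fun _ : σ => Finset.range N,
      coeff (ex m) (X i ^ 2 * g * linPow B m) =
      ∑ m ∈ (Fintype.piFinset fun _ : σ => Finset.range N).filter (fun m => 1 ≤ m i),
        coeff (ex m) (X i ^ 2 * g * linPow B m) := by
    rw [Finset.sum_filter]
    refine Finset.sum_congr rfl fun m _ => ?_
    split_ifs with h
    · rfl
    · exact coeff_zero_of_zero B m i (by omega) g
  have hr : ∑ m ∈ Fintype.piFinset fun _ : σ => Finset.range N,
      coeff (ex m) (lin B i * g * linPow B m) =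
      ∑ m ∈ (Fintype.piFinset fun _ : σ => Finset.range N).filter (fun m => m i + 1 < N),
        coeff (ex m) (lin B i * g * linPow B m) := by
    rw [Finset.sum_filter]
    refine Finset.sum_congr rfl fun m hm => ?_
    split_ifs with h
    · rfl
    · have h1 : m i < N := by
        have := (Fintype.mem_piFinset.mp hm) i
        simpa using this
      apply coeff_vanish
      have h2 : (lin B i * g).totalDegree ≤ 1 + g.totalDegree :=
        (totalDegree_mul _ _).trans (Nat.add_le_add_right (totalDegree_lin B i) _)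
      have h3 : m i ≤ ∑ j, m j := Finset.single_le_sum (fun j _ => Nat.zero_le _) (Finset.mem_univ i)
      omega
  rw [hl, hr]
  symm
  refine Finset.sum_bij' (fun m _ => Function.update m i (m i + 1))
    (fun m _ => Function.update m i (m i - 1)) ?_ ?_ ?_ ?_ ?_
  · intro m hm
    rw [Finset.mem_filter, Fintype.mem_piFinset] at hm ⊢
    refine ⟨fun j => ?_, ?_⟩
    · by_cases h : j = i
      · subst h
        rw [Function.update_self, Finset.mem_range]; exact hm.2
      · rw [Function.update_of_ne h]; exact hm.1 j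
    · rw [Function.update_self]; omega
  · intro m hm
    rw [Finset.mem_filter, Fintype.mem_piFinset] at hm ⊢
    refine ⟨fun j => ?_, ?_⟩
    · by_cases h : j = i
      · subst h
        rw [Function.update_self, Finset.mem_range]
        have := hm.1 j
        rw [Finset.mem_range] at this
        omega
      · rw [Function.update_of_ne h]; exact hm.1 j
    · rw [Function.update_self]
      have := hm.1 i
      rw [Finset.mem_range] at this
      omega
  · intro m _
    funext j
    by_cases h : j = i
    · subst h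
      simp
    · simp [h]
  · intro m hm
    rw [Finset.mem_filter] at hm
    funext j
    by_cases h : j = i
    · subst h
      simp
      omega
    · simp [h]
  · intro m _
    exact (coeff_shift B m i g).symm

lemma tau_prod (B : Matrix σ σ ℂ) (N : ℕ) (hN : 0 < N) : tau B N (∏ i, X i) = 1 := by
  rw [tau, Finset.sum_eq_single (fun _ => 0)]
  · have h1 : linPow B (fun _ : σ => 0) = 1 := by simp [linPow]
    have h2 : (∏ i, X i : MvPolynomial σ ℂ) = monomial (ex fun _ => 0) 1 := by
      rw [monomial_eq]
      rw [map_one, one_mul, Finsupp.prod_fintype]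
      · refine Finset.prod_congr rfl fun i _ => ?_
        rw [ex_apply]; simp
      · intro i; simp
    rw [h1, mul_one, h2, coeff_monomial, if_pos rfl]
  · intro m _ hm
    apply coeff_vanish
    have h1 : (∏ i, X i : MvPolynomial σ ℂ).totalDegree ≤ Fintype.card σ := by
      refine (totalDegree_finsetProd _ _).trans ?_
      simp
    have h2 : 0 < ∑ i, m i := by
      rw [Nat.pos_iff_ne_zero]
      intro h0
      apply hm
      funext i
      exact (Finset.sum_eq_zero_iff.mp h0) i (Finset.mem_univ i)
    omega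
  · intro h
    exfalso
    apply h
    rw [Fintype.mem_piFinset]
    intro i
    rw [Finset.mem_range]
    exact hN

/-- The system `∑ i, ξ i ^ 2 * A i k = ξ k` has a nonzero solution if `A` is invertible. -/
theorem exists_solution [Nonempty σ] (A : Matrix σ σ ℂ) (hA : IsUnit A.det) :
    ∃ ξ : σ → ℂ, ξ ≠ 0 ∧ ∀ k, ∑ i, ξ i ^ 2 * A i k = ξ k := by
  by_contra hcon
  push Not at hcon
  set B : Matrix σ σ ℂ := A⁻¹ with hB
  have hAB : A * B = 1 := Matrix.mul_nonsing_inv A hA
  have hBA : B * A = 1 := Matrix.nonsing_inv_mul A hA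
  set I : Ideal (MvPolynomial σ ℂ) := Ideal.span (Set.range fun i => X i ^ 2 - lin B i) with hI
  set M : Ideal (MvPolynomial σ ℂ) := Ideal.span (Set.range fun i : σ => X i) with hM
  -- the linear combinations
  have hlin : ∀ k, (X k : MvPolynomial σ ℂ) = ∑ i, C (A i k) * lin B i := by
    intro k
    have h1 : ∀ i, C (A i k) * lin B i = ∑ l, C (B l i * A i k) * X l := by
      intro i
      rw [lin, Finset.mul_sum]
      refine Finset.sum_congr rfl fun l _ => ?_
      rw [C_mul]; ring
    rw [Finset.sum_congr rfl fun i _ => h1 i, Finset.sum_comm]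
    have h2 : ∀ l, ∑ i, C (B l i * A i k) * (X l : MvPolynomial σ ℂ) = C ((1 : Matrix σ σ ℂ) l k) * X l := by
      intro l
      rw [← Finset.sum_mul, ← map_sum, ← hBA, Matrix.mul_apply]
    rw [Finset.sum_congr rfl fun l _ => h2 l, Finset.sum_eq_single k]
    · simp
    · intro l _ hl
      rw [Matrix.one_apply_ne hl]; simp
    · intro h; exact absurd (Finset.mem_univ k) h
  -- only the zero solution
  have hzero : ∀ x ∈ zeroLocus ℂ I, x = 0 := by
    intro x hx
    by_contra hx0
    obtain ⟨k, hk⟩ := hcon x hx0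
    apply hk
    have h1 : ∀ i, x i ^ 2 = ∑ l, B l i * x l := by
      intro i
      have := hx (X i ^ 2 - lin B i) (Ideal.subset_span ⟨i, rfl⟩)
      rw [map_sub, map_pow, aeval_X, sub_eq_zero] at this
      rw [this, lin, map_sum]
      refine Finset.sum_congr rfl fun l _ => ?_
      simp
    calc ∑ i, x i ^ 2 * A i k = ∑ i, (∑ l, B l i * x l) * A i k := by
          refine Finset.sum_congr rfl fun i _ => by rw [h1]
      _ = ∑ l, x l * ∑ i, B l i * A i k := by
          simp only [Finset.sum_mul, Finset.mul_sum]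
          rw [Finset.sum_comm]
          refine Finset.sum_congr rfl fun l _ => Finset.sum_congr rfl fun i _ => by ring
      _ = ∑ l, x l * (1 : Matrix σ σ ℂ) l k := by
          refine Finset.sum_congr rfl fun l _ => ?_
          rw [← hBA, Matrix.mul_apply]
      _ = x k := by
          rw [Finset.sum_eq_single k]
          · simp
          · intro l _ hl
            rw [Matrix.one_apply_ne hl, mul_zero]
          · intro h; exact absurd (Finset.mem_univ k) h
  have hrad : M ≤ I.radical := by
    rw [← vanishingIdeal_zeroLocus_eq_radical (K := ℂ), hM, Ideal.span_le]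
    rintro _ ⟨k, rfl⟩
    rw [SetLike.mem_coe, mem_vanishingIdeal_iff]
    intro x hx
    rw [hzero x hx, aeval_X]; rfl
  obtain ⟨n, hn⟩ := Ideal.exists_pow_le_of_le_radical_of_fg hrad
    ((Submodule.fg_def).mpr ⟨_, Set.finite_range _, rfl⟩)
  have hXM : ∀ i, (X i : MvPolynomial σ ℂ) ∈ M := fun i => Ideal.subset_span (Set.mem_range_self i)
  have hPI : ∀ i, (X i ^ 2 - lin B i : MvPolynomial σ ℂ) ∈ I := fun i =>
    Ideal.subset_span (Set.mem_range_self i)
  have h2 : M ≤ I ⊔ M ^ 2 := by
    have h3 : ∀ k, (X k : MvPolynomial σ ℂ) ∈ I ⊔ M ^ 2 := by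
      intro k
      rw [hlin k]
      refine Ideal.sum_mem _ fun i _ => Ideal.mul_mem_left _ _ ?_
      have h4 : lin B i = -(X i ^ 2 - lin B i) + X i ^ 2 := by ring
      rw [h4]
      exact Ideal.add_mem _ (Ideal.mem_sup_left (I.neg_mem (hPI i)))
        (Ideal.mem_sup_right (Ideal.pow_mem_pow (hXM i) 2))
    rw [hM, Ideal.span_le]
    rintro _ ⟨k, rfl⟩
    exact h3 k
  have hstep := ideal_step M I h2
  have hMI : M ≤ I := by
    refine (hstep n).trans (sup_le le_rfl ?_)
    exact (Ideal.pow_le_pow_right (Nat.le_succ n)).trans hn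
  obtain ⟨i₀⟩ := ‹Nonempty σ›
  have hprod : (∏ i, X i : MvPolynomial σ ℂ) ∈ I := by
    rw [← Finset.mul_prod_erase Finset.univ _ (Finset.mem_univ i₀)]
    exact Ideal.mul_mem_right _ _ (hMI (hXM i₀))
  rw [hI, Ideal.mem_span_range_iff_exists_fun] at hprod
  obtain ⟨g, hg⟩ := hprod
  set N : ℕ := ∑ i, (g i).totalDegree + 3 with hN
  have h1 := tau_prod B N (by omega)
  rw [← hg, tau_sum] at h1
  rw [Finset.sum_eq_zero] at h1
  · norm_num at h1
  · intro i _
    rw [mul_comm]
    apply tau_mul
    have : (g i).totalDegree ≤ ∑ i, (g i).totalDegree :=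
      Finset.single_le_sum (f := fun i => (g i).totalDegree) (fun j _ => Nat.zero_le _) (Finset.mem_univ i)
    omega

end Pool.Agent.Q11.Evo
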