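import Mathlib
import Pool.Agent.Q11.Evo.Solve

/-!
# Evolution algebras: natural bases, subalgebras, powers, and the upper annihilating series

An algebra is a complex vector space `V` with a bilinear product `μ : V →ₗ[ℂ] V →ₗ[ℂ] V`.
-/

set_option autoImplicit false

namespace Pool.Agent.Q11.Evo

open Module

section defs

variable {V : Type*} [AddCommGroup V] [Module ℂ V]

/-- A natural basis: the product of distinct members is zero. -/
def IsNat (μ : V →ₗ[ℂ] V →ₗ[ℂ] V) {ι : Type*} (b : Basis ι ℂ V) : Prop :=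
  ∀ i j, i ≠ j → μ (b i) (b j) = 0

/-- An `n`-dimensional evolution algebra. -/
def IsEvo (n : ℕ) (μ : V →ₗ[ℂ] V →ₗ[ℂ] V) : Prop := ∃ b : Basis (Fin n) ℂ V, IsNat μ b

/-- Subalgebras. -/
def IsSub (μ : V →ₗ[ℂ] V →ₗ[ℂ] V) (W : Submodule ℂ V) : Prop := ∀ x ∈ W, ∀ y ∈ W, μ x y ∈ W

/-- Evolution subalgebras: the span of a part of a natural basis of the whole algebra. -/
def IsEvoSub (μ : V →ₗ[ℂ] V →ₗ[ℂ] V) (W : Submodule ℂ V) : Prop :=
  ∃ (n : ℕ) (b : Basis (Fin n) ℂ V), IsNat μ b ∧ ∃ I : Set (Fin n), W = Submodule.span ℂ (b '' I)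

/-- Condition `P`: every subalgebra is an evolution subalgebra. -/
def CondP (μ : V →ₗ[ℂ] V →ₗ[ℂ] V) : Prop := ∀ W : Submodule ℂ V, IsSub μ W → IsEvoSub μ W

/-- The powers `E^1 = E`, `E^k = ∑ E^i E^(k-i)`. -/
def pw (μ : V →ₗ[ℂ] V →ₗ[ℂ] V) : ℕ → Submodule ℂ V
  | 0 => ⊤
  | 1 => ⊤
  | (k + 2) => ⨆ i : Fin (k + 1), Submodule.map₂ μ (pw μ (i + 1)) (pw μ (k + 1 - i))
  decreasing_by
    · exact Nat.add_lt_add_right i.2 1
    · omega

/-- Nilpotency. -/
def IsNilp (μ : V →ₗ[ℂ] V →ₗ[ℂ] V) : Prop := ∃ m, 1 ≤ m ∧ pw μ m = ⊥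

/-- The index of nilpotency. -/
noncomputable def nilIndex (μ : V →ₗ[ℂ] V →ₗ[ℂ] V) : ℕ := sInf {m | 1 ≤ m ∧ pw μ m = ⊥}

/-- The upper annihilating series. -/
def U (μ : V →ₗ[ℂ] V →ₗ[ℂ] V) : ℕ → Submodule ℂ V
  | 0 => ⊥
  | (k + 1) =>
    { carrier := {x | ∀ y, μ x y ∈ U μ k}
      add_mem' := by
        intro a b ha hb y
        rw [map_add, LinearMap.add_apply]
        exact (U μ k).add_mem (ha y) (hb y)
      zero_mem' := by
        intro y
        rw [map_zero, LinearMap.zero_apply]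
        exact (U μ k).zero_mem
      smul_mem' := by
        intro c a ha y
        rw [map_smul, LinearMap.smul_apply]
        exact (U μ k).smul_mem c (ha y) }

end defs

variable {V : Type*} [AddCommGroup V] [Module ℂ V] {μ : V →ₗ[ℂ] V →ₗ[ℂ] V}

lemma mem_U_zero {x : V} : x ∈ U μ 0 ↔ x = 0 := by
  change x ∈ (⊥ : Submodule ℂ V) ↔ _
  simp

lemma mem_U_succ {k : ℕ} {x : V} : x ∈ U μ (k + 1) ↔ ∀ y, μ x y ∈ U μ k := Iff.rfl

lemma U_le_succ (k : ℕ) : U μ k ≤ U μ (k + 1) := by
  induction k with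
  | zero =>
    intro x hx
    rw [mem_U_zero] at hx
    rw [hx]; exact (U μ (0 + 1)).zero_mem
  | succ k ih =>
    intro x hx y
    exact ih (hx y)

lemma U_mono : Monotone (U μ) := monotone_nat_of_le_succ U_le_succ

section nat

variable {ι : Type*} [Fintype ι] {b : Basis ι ℂ V}

lemma mul_left_basis (hb : IsNat μ b) (i : ι) (y : V) : μ (b i) y = b.repr y i • μ (b i) (b i) := by
  classical
  conv_lhs => rw [← b.sum_repr y]
  rw [map_sum, Finset.sum_eq_single i]
  · rw [map_smul]
  · intro j _ hj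
    rw [map_smul, hb i j (Ne.symm hj), smul_zero]
  · intro h; exact absurd (Finset.mem_univ i) h

lemma mul_right_basis (hb : IsNat μ b) (i : ι) (y : V) : μ y (b i) = b.repr y i • μ (b i) (b i) := by
  classical
  conv_lhs => rw [← b.sum_repr y]
  rw [map_sum, LinearMap.sum_apply, Finset.sum_eq_single i]
  · rw [map_smul, LinearMap.smul_apply]
  · intro j _ hj
    rw [map_smul, LinearMap.smul_apply, hb j i hj, smul_zero]
  · intro h; exact absurd (Finset.mem_univ i) h

lemma mul_eq (hb : IsNat μ b) (x y : V) :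
    μ x y = ∑ i, (b.repr x i * b.repr y i) • μ (b i) (b i) := by
  conv_lhs => rw [← b.sum_repr x]
  rw [map_sum, LinearMap.sum_apply]
  refine Finset.sum_congr rfl fun i _ => ?_
  rw [map_smul, LinearMap.smul_apply, mul_left_basis hb, smul_smul]

lemma mul_comm' (hb : IsNat μ b) (x y : V) : μ x y = μ y x := by
  rw [mul_eq hb, mul_eq hb]
  refine Finset.sum_congr rfl fun i _ => ?_
  rw [mul_comm]

lemma basis_mem_U_succ (hb : IsNat μ b) (i : ι) (k : ℕ) :
    b i ∈ U μ (k + 1) ↔ μ (b i) (b i) ∈ U μ k := by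
  constructor
  · intro h; exact h _
  · intro h y
    rw [mul_left_basis hb]
    exact (U μ k).smul_mem _ h

lemma mem_U_iff (hb : IsNat μ b) (k : ℕ) (x : V) :
    x ∈ U μ k ↔ ∀ i, b.repr x i = 0 ∨ b i ∈ U μ k := by
  constructor
  · cases k with
    | zero =>
      intro hx i
      rw [mem_U_zero] at hx
      left; rw [hx]; simp
    | succ k =>
      intro hx i
      by_cases h : b.repr x i = 0
      · left; exact h
      · right
        rw [basis_mem_U_succ hb]
        have := hx (b i)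
        rw [mul_right_basis hb] at this
        have h2 := (U μ k).smul_mem (b.repr x i)⁻¹ this
        rwa [smul_smul, inv_mul_cancel₀ h, one_smul] at h2
  · intro h
    rw [← b.sum_repr x]
    refine (U μ k).sum_mem fun i _ => ?_
    rcases h i with h | h
    · rw [h, zero_smul]; exact (U μ k).zero_mem
    · exact (U μ k).smul_mem _ h

lemma mul_mem_U (hb : IsNat μ b) {k : ℕ} {x : V} (hx : x ∈ U μ (k + 1)) (y : V) :
    μ x y ∈ U μ k ∧ μ y x ∈ U μ k :=
  ⟨hx y, by rw [mul_comm' hb]; exact hx y⟩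

end nat

/-- Under `P`, square-zero elements are annihilators. -/
lemma sq_zero (hP : CondP μ) {x : V} (hx : μ x x = 0) : x ∈ U μ 1 := by
  by_cases hx0 : x = 0
  · rw [hx0]; exact (U μ 1).zero_mem
  have hsub : IsSub μ (Submodule.span ℂ {x}) := by
    intro a ha c hc
    rw [Submodule.mem_span_singleton] at ha hc
    obtain ⟨s, rfl⟩ := ha
    obtain ⟨t, rfl⟩ := hc
    simp only [map_smul, LinearMap.smul_apply, hx, smul_zero]
    exact Submodule.zero_mem _
  obtain ⟨n, f, hf, I, hI⟩ := hP _ hsub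
  have hne : I.Nonempty := by
    rw [Set.nonempty_iff_ne_empty]
    rintro rfl
    rw [Set.image_empty, Submodule.span_empty, Submodule.span_singleton_eq_bot] at hI
    exact hx0 hI
  obtain ⟨j, hj⟩ := hne
  have h1 : f j ∈ Submodule.span ℂ {x} := by
    rw [hI]; exact Submodule.subset_span ⟨j, hj, rfl⟩
  rw [Submodule.mem_span_singleton] at h1
  obtain ⟨c, hc⟩ := h1
  have hc0 : c ≠ 0 := by
    rintro rfl
    rw [zero_smul] at hc
    exact f.ne_zero j hc.symm
  intro y
  rw [mem_U_zero]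
  have h2 : μ (f j) (f j) = 0 := by
    rw [← hc]
    simp only [map_smul, LinearMap.smul_apply, hx, smul_zero]
  have h3 := mul_left_basis hf j y
  rw [h2, smul_zero, ← hc, map_smul, LinearMap.smul_apply] at h3
  exact (smul_eq_zero.mp h3).resolve_left hc0

/-- Under `P`, subalgebras containing the annihilator are coordinate subspaces. -/
lemma coord {ι : Type*} [Fintype ι] {b : Basis ι ℂ V} (hb : IsNat μ b) (hP : CondP μ)
    {S : Submodule ℂ V} (hS : IsSub μ S) (hU : U μ 1 ≤ S) {x : V} (hx : x ∈ S) {i : ι}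
    (hi : b.repr x i ≠ 0) : b i ∈ S := by
  classical
  by_cases hbi : b i ∈ U μ 1
  · exact hU hbi
  obtain ⟨n, f, hf, I, rfl⟩ := hP _ hS
  obtain ⟨j, hjI, hj⟩ : ∃ j ∈ I, b.repr (f j) i ≠ 0 := by
    by_contra hcon
    push Not at hcon
    apply hi
    have : Submodule.span ℂ (f '' I) ≤ LinearMap.ker (b.coord i) := by
      rw [Submodule.span_le]
      rintro _ ⟨j, hj, rfl⟩
      rw [SetLike.mem_coe, LinearMap.mem_ker, Basis.coord_apply]
      exact hcon j hj
    have := this hx
    rwa [LinearMap.mem_ker, Basis.coord_apply] at this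
  have hfj : f j ∈ Submodule.span ℂ (f '' I) := Submodule.subset_span ⟨j, hjI, rfl⟩
  have hsq : ∀ k, b k ∉ U μ 1 → b.repr (f j) k ≠ 0 →
      ∃ α : ℂ, α ≠ 0 ∧ μ (b k) (b k) = α • μ (f j) (f j) := by
    intro k hk hk0
    have h1 := mul_left_basis hf j (b k)
    rw [mul_right_basis hb] at h1
    refine ⟨(b.repr (f j) k)⁻¹ * f.repr (b k) j, ?_, ?_⟩
    · intro h0
      apply hk
      rw [basis_mem_U_succ hb, mem_U_zero]
      have h2 : μ (b k) (b k) = ((b.repr (f j) k)⁻¹ * f.repr (b k) j) • μ (f j) (f j) := by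
        rw [mul_smul, ← h1, smul_smul, inv_mul_cancel₀ hk0, one_smul]
      rw [h2, h0, zero_smul]
    · rw [mul_smul, ← h1, smul_smul, inv_mul_cancel₀ hk0, one_smul]
  have hclaim : ∀ k, k ≠ i → b.repr (f j) k = 0 ∨ b k ∈ U μ 1 := by
    intro k hki
    by_contra hcon
    push Not at hcon
    obtain ⟨α, hα, h1⟩ := hsq i hbi hj
    obtain ⟨β, hβ, h2⟩ := hsq k hcon.2 hcon.1
    obtain ⟨t, ht⟩ := IsAlgClosed.exists_pow_nat_eq (-α / β) (n := 2) (by norm_num)
    have h3 : μ (b i + t • b k) (b i + t • b k) = 0 := by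
      simp only [map_add, LinearMap.add_apply, map_smul, LinearMap.smul_apply,
        hb i k (Ne.symm hki), hb k i hki, h1, h2, smul_zero, add_zero, zero_add, smul_smul]
      rw [← add_smul]
      have h5 : α + t * (t * β) = 0 := by
        have h6 : t * (t * β) = t ^ 2 * β := by ring
        rw [h6, ht]; field_simp; ring
      rw [h5, zero_smul]
    have h4 := (mem_U_iff hb 1 _).mp (sq_zero hP h3) i
    rcases h4 with h4 | h4
    · rw [map_add, map_smul, Finsupp.add_apply, Finsupp.smul_apply, Basis.repr_self,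
        Basis.repr_self, Finsupp.single_eq_same, Finsupp.single_apply, if_neg hki, smul_zero,
        add_zero] at h4
      exact one_ne_zero h4
    · exact hbi h4
  have hz : f j - b.repr (f j) i • b i ∈ U μ 1 := by
    rw [mem_U_iff hb]
    intro k
    by_cases hki : k = i
    · left
      subst hki
      rw [map_sub, map_smul, Finsupp.sub_apply, Finsupp.smul_apply, Basis.repr_self,
        Finsupp.single_eq_same, smul_eq_mul, mul_one, sub_self]
    · rcases hclaim k hki with h | h
      · left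
        rw [map_sub, map_smul, Finsupp.sub_apply, Finsupp.smul_apply, Basis.repr_self,
          Finsupp.single_apply, if_neg (Ne.symm hki), smul_zero, sub_zero, h]
      · right; exact h
  have h5 : b i = (b.repr (f j) i)⁻¹ • (f j - (f j - b.repr (f j) i • b i)) := by
    rw [sub_sub_cancel, smul_smul, inv_mul_cancel₀ hj, one_smul]
  rw [h5]
  exact Submodule.smul_mem _ _ (Submodule.sub_mem _ hfj (hU hz))

end Pool.Agent.Q11.Evo
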