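import Mathlib
import Pool.Agent.Q11.Evo.Basic

/-!
# Powers and the index of nilpotency
-/

set_option autoImplicit false

namespace Pool.Agent.Q11.Evo

open Module

variable {V : Type*} [AddCommGroup V] [Module ℂ V] {μ : V →ₗ[ℂ] V →ₗ[ℂ] V}

lemma pw_zero : pw μ 0 = ⊤ := by rw [pw]

lemma pw_one : pw μ 1 = ⊤ := by rw [pw]

lemma pw_add_two (k : ℕ) :
    pw μ (k + 2) = ⨆ i : Fin (k + 1), Submodule.map₂ μ (pw μ (i + 1)) (pw μ (k + 1 - i)) := by
  rw [pw]

lemma mul_mem_pw {i j : ℕ} (hi : 1 ≤ i) (hj : 1 ≤ j) {x y : V} (hx : x ∈ pw μ i) (hy : y ∈ pw μ j) :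
    μ x y ∈ pw μ (i + j) := by
  obtain ⟨i, rfl⟩ : ∃ i', i = i' + 1 := ⟨i - 1, by omega⟩
  obtain ⟨j, rfl⟩ : ∃ j', j = j' + 1 := ⟨j - 1, by omega⟩
  have h : i + 1 + (j + 1) = (i + j) + 2 := by ring
  rw [h, pw_add_two]
  have h1 : Submodule.map₂ μ (pw μ (i + 1)) (pw μ (j + 1)) ≤
      ⨆ l : Fin (i + j + 1), Submodule.map₂ μ (pw μ (l + 1)) (pw μ (i + j + 1 - l)) := by
    have h2 := le_iSup (fun l : Fin (i + j + 1) => Submodule.map₂ μ (pw μ (l + 1)) (pw μ (i + j + 1 - l)))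
      ⟨i, by omega⟩
    have h3 : i + j + 1 - i = j + 1 := by omega
    simp only [h3] at h2
    exact h2
  exact h1 (Submodule.apply_mem_map₂ μ hx hy)

lemma pw_le {m : ℕ} (hm : 2 ≤ m) {W : Submodule ℂ V}
    (h : ∀ i j, 1 ≤ i → 1 ≤ j → i + j = m → ∀ x ∈ pw μ i, ∀ y ∈ pw μ j, μ x y ∈ W) : pw μ m ≤ W := by
  obtain ⟨m, rfl⟩ : ∃ m', m = m' + 2 := ⟨m - 2, by omega⟩
  rw [pw_add_two]
  refine iSup_le fun i => ?_
  rw [Submodule.map₂_le]
  intro x hx y hy
  exact h (i + 1) (m + 1 - i) (by omega) (by have := i.2; omega) (by have := i.2; omega) x hx y hy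

lemma pw_succ_le (m : ℕ) : pw μ (m + 1) ≤ pw μ m := by
  induction m using Nat.strong_induction_on with
  | _ m ih =>
    rcases Nat.lt_or_ge m 2 with hm | hm
    · have : pw μ m = ⊤ := by
        rcases (by omega : m = 0 ∨ m = 1) with rfl | rfl
        · exact pw_zero
        · exact pw_one
      rw [this]; exact le_top
    · refine pw_le (by omega) ?_
      intro i j hi hj hij x hx y hy
      rcases Nat.lt_or_ge i 2 with h | h
      · have hi1 : i = 1 := by omega
        subst hi1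
        have hj2 : j = (j - 1) + 1 := by omega
        rw [hj2] at hy
        have := mul_mem_pw (μ := μ) (le_refl 1) (by omega : 1 ≤ j - 1) hx (ih (j - 1) (by omega) hy)
        have e : 1 + (j - 1) = m := by omega
        rwa [e] at this
      · have hi2 : i = (i - 1) + 1 := by omega
        rw [hi2] at hx
        have := mul_mem_pw (μ := μ) (by omega : 1 ≤ i - 1) hj (ih (i - 1) (by omega) hx) hy
        have e : i - 1 + j = m := by omega
        rwa [e] at this

lemma pw_anti : Antitone (pw μ) := antitone_nat_of_succ_le pw_succ_le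

/-- If the upper annihilating series reaches the algebra in `K` steps, then `E^(2^(K-1)+1) = 0`. -/
lemma pw_eq_bot_of_U (hc : ∀ x y, μ x y = μ y x) {K : ℕ} (hK : 1 ≤ K) (h : U μ K = ⊤) :
    pw μ (2 ^ (K - 1) + 1) = ⊥ := by
  have key : ∀ j, j ≤ K - 1 → pw μ (2 ^ j + 1) ≤ U μ (K - 1 - j) := by
    intro j
    induction j with
    | zero =>
      intro _
      refine pw_le (by norm_num) ?_
      intro i j _ _ _ x _ y _
      have hx : x ∈ U μ (K - 1 + 1) := by
        have : K - 1 + 1 = K := by omega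
        rw [this, h]; trivial
      have := hx y
      simpa using this
    | succ j ih =>
      intro hj
      have ih := ih (by omega)
      have hlev : K - 1 - j = (K - 1 - (j + 1)) + 1 := by omega
      refine pw_le (by have : 1 ≤ 2 ^ (j + 1) := Nat.one_le_two_pow; omega) ?_
      intro a c ha hc' hac x hx y hy
      have hpow : 2 ^ (j + 1) = 2 ^ j + 2 ^ j := by ring
      rcases Nat.lt_or_ge a (2 ^ j + 1) with hlt | hge
      · have hy' : y ∈ U μ (K - 1 - j) := ih (pw_anti (by omega : 2 ^ j + 1 ≤ c) hy)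
        rw [hlev] at hy'
        rw [hc]
        exact hy' x
      · have hx' : x ∈ U μ (K - 1 - j) := ih (pw_anti hge hx)
        rw [hlev] at hx'
        exact hx' y
  have := key (K - 1) le_rfl
  rw [Nat.sub_self] at this
  rw [eq_bot_iff]
  exact this

lemma U_eq_top_of_stable (hnil : IsNilp μ) {k : ℕ} (h : U μ k = U μ (k + 1)) : U μ k = ⊤ := by
  by_contra hne
  obtain ⟨x₀, hx₀⟩ : ∃ x, x ∉ U μ k := by
    by_contra hcon
    push Not at hcon
    exact hne (eq_top_iff.mpr fun x _ => hcon x)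
  have hstep : ∀ x, x ∉ U μ k → ∃ y, μ x y ∉ U μ k := by
    intro x hx
    by_contra hcon
    push Not at hcon
    apply hx
    rw [h]
    exact hcon
  have key : ∀ m : ℕ, ∃ x ∈ pw μ (m + 1), x ∉ U μ k := by
    intro m
    induction m with
    | zero => exact ⟨x₀, by rw [zero_add, pw_one]; trivial, hx₀⟩
    | succ m ih =>
      obtain ⟨x, hx, hxU⟩ := ih
      obtain ⟨y, hy⟩ := hstep x hxU
      exact ⟨μ x y, mul_mem_pw (by omega) (le_refl 1) hx (by rw [pw_one]; trivial), hy⟩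
  obtain ⟨m, hm1, hm⟩ := hnil
  obtain ⟨x, hx, hxU⟩ := key (m - 1)
  rw [Nat.sub_add_cancel hm1, hm, Submodule.mem_bot] at hx
  rw [hx] at hxU
  exact hxU (U μ k).zero_mem

lemma finrank_U [FiniteDimensional ℂ V] (hnil : IsNilp μ) (k : ℕ) : U μ k = ⊤ ∨ k ≤ finrank ℂ (U μ k) := by
  induction k with
  | zero => right; exact Nat.zero_le _
  | succ k ih =>
    rcases ih with ih | ih
    · left
      exact top_le_iff.mp (ih ▸ U_le_succ k)
    · by_cases hst : U μ k = U μ (k + 1)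
      · left
        rw [← hst]; exact U_eq_top_of_stable hnil hst
      · right
        have hlt : U μ k < U μ (k + 1) := lt_of_le_of_ne (U_le_succ k) hst
        have := Submodule.finrank_lt_finrank_of_lt hlt
        omega

lemma U_finrank_eq_top [FiniteDimensional ℂ V] (hnil : IsNilp μ) : U μ (finrank ℂ V) = ⊤ := by
  rcases finrank_U hnil (finrank ℂ V) with h | h
  · exact h
  · exact Submodule.eq_top_of_finrank_eq (le_antisymm (Submodule.finrank_le _) h)

lemma nilIndex_spec (hnil : IsNilp μ) : 1 ≤ nilIndex μ ∧ pw μ (nilIndex μ) = ⊥ :=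
  Nat.sInf_mem (s := {m | 1 ≤ m ∧ pw μ m = ⊥}) hnil

lemma nilIndex_le {m : ℕ} (hm : 1 ≤ m) (h : pw μ m = ⊥) : nilIndex μ ≤ m :=
  Nat.sInf_le (s := {m | 1 ≤ m ∧ pw μ m = ⊥}) ⟨hm, h⟩

lemma nilIndex_le_of_evo {s : ℕ} (hs : 1 ≤ s) (hevo : IsEvo s μ) (hnil : IsNilp μ) :
    nilIndex μ ≤ 2 ^ (s - 1) + 1 := by
  obtain ⟨b, hb⟩ := hevo
  have : FiniteDimensional ℂ V := Module.Finite.of_basis b
  have hfr : finrank ℂ V = s := by rw [finrank_eq_card_basis b, Fintype.card_fin]
  have h1 := U_finrank_eq_top hnil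
  rw [hfr] at h1
  exact nilIndex_le (Nat.succ_le_succ (Nat.zero_le _)) (pw_eq_bot_of_U (mul_comm' hb) hs h1)

/-- Iterated squares. -/
def sq (μ : V →ₗ[ℂ] V →ₗ[ℂ] V) (y : V) : ℕ → V
  | 0 => y
  | (j + 1) => μ (sq μ y j) (sq μ y j)

lemma sq_mem_pw (y : V) (j : ℕ) : sq μ y j ∈ pw μ (2 ^ j) := by
  induction j with
  | zero => rw [pow_zero, pw_one]; trivial
  | succ j ih =>
    have h : 2 ^ (j + 1) = 2 ^ j + 2 ^ j := by ring
    rw [h]
    exact mul_mem_pw Nat.one_le_two_pow Nat.one_le_two_pow ih ih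

lemma lt_nilIndex_of_sq (hnil : IsNilp μ) {y : V} {j : ℕ} (h : sq μ y j ≠ 0) :
    2 ^ j + 1 ≤ nilIndex μ := by
  by_contra hcon
  have h1 : nilIndex μ ≤ 2 ^ j := by omega
  have h2 := pw_anti (μ := μ) h1 (sq_mem_pw y j)
  rw [(nilIndex_spec hnil).2, Submodule.mem_bot] at h2
  exact h h2

end Pool.Agent.Q11.Evo
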