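import Mathlib
import Pool.Agent.Q11.Evo.Powers

/-!
# The structure of non-nilpotent evolution algebras with condition `P`
-/

set_option autoImplicit false

namespace Pool.Agent.Q11.Evo

open Module

variable {V : Type*} [AddCommGroup V] [Module ℂ V] {μ : V →ₗ[ℂ] V →ₗ[ℂ] V}
variable {ι : Type*} [Fintype ι] {b : Basis ι ℂ V}

/-- Coordinate ideals without square-zero elements modulo them. -/
structure Good (μ : V →ₗ[ℂ] V →ₗ[ℂ] V) (b : Basis ι ℂ V) (W : Submodule ℂ V) : Prop where
  coordw : ∀ x, x ∈ W ↔ ∀ i, b.repr x i = 0 ∨ b i ∈ W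
  ideal : ∀ w ∈ W, ∀ y, μ w y ∈ W
  nosq : ∀ x, μ x x ∈ W → x ∈ W

lemma mul_sum_self (hb : IsNat μ b) (s : ι → ℂ) :
    μ (∑ i, s i • b i) (∑ i, s i • b i) = ∑ i, s i ^ 2 • μ (b i) (b i) := by
  rw [mul_eq hb]
  refine Finset.sum_congr rfl fun i _ => ?_
  have : b.repr (∑ i, s i • b i) i = s i := by
    have := b.equivFun.apply_symm_apply s
    rw [Basis.equivFun_symm_apply] at this
    exact congrFun this i
  rw [this, pow_two]

lemma repr_sum (s : ι → ℂ) (i : ι) : b.repr (∑ i, s i • b i) i = s i := by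
  have := b.equivFun.apply_symm_apply s
  rw [Basis.equivFun_symm_apply] at this
  exact congrFun this i

/-- Existence of an idempotent modulo a good ideal. -/
lemma exists_idem (hb : IsNat μ b) {W : Submodule ℂ V} (hG : Good μ b W) (hW : W ≠ ⊤) :
    ∃ x, x ∉ W ∧ μ x x - x ∈ W := by
  classical
  -- the indices outside `W`
  let M := {i : ι // b i ∉ W}
  have hne : Nonempty M := by
    by_contra hcon
    rw [not_nonempty_iff] at hcon
    apply hW
    rw [eq_top_iff]
    intro x _
    rw [hG.coordw]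
    intro i
    right
    by_contra h
    exact hcon.elim ⟨i, h⟩
  let A : Matrix M M ℂ := fun i k => b.repr (μ (b i) (b i)) k
  have hcoef : ∀ (s : M → ℂ) (k : M),
      b.repr (∑ i : ι, (if h : b i ∉ W then s ⟨i, h⟩ else 0) • μ (b i) (b i)) k = ∑ i : M, s i * A i k := by
    intro s k
    rw [map_sum, Finsupp.finsetSum_apply]
    simp only [map_smul, Finsupp.smul_apply, smul_eq_mul]
    have h1 : ∀ i : ι, (if h : b i ∉ W then s ⟨i, h⟩ else 0) * b.repr (μ (b i) (b i)) k =
        if h : b i ∉ W then s ⟨i, h⟩ * A ⟨i, h⟩ k else 0 := by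
      intro i
      by_cases h : b i ∈ W
      · rw [dif_neg (not_not.mpr h), dif_neg (not_not.mpr h), zero_mul]
      · rw [dif_pos h, dif_pos h]
    rw [Finset.sum_congr rfl fun i _ => h1 i]
    rw [← Finset.sum_filter_add_sum_filter_not Finset.univ (fun i => b i ∉ W)]
    have h2 : ∑ x ∈ Finset.univ.filter (fun i => ¬ b i ∉ W),
        (if h : b x ∉ W then s ⟨x, h⟩ * A ⟨x, h⟩ k else 0) = 0 := by
      refine Finset.sum_eq_zero fun i hi => ?_
      rw [Finset.mem_filter] at hi
      rw [dif_neg hi.2]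
    rw [h2, add_zero]
    rw [Finset.sum_subtype (p := fun i => b i ∉ W) _ (by simp)]
    refine Finset.sum_congr rfl fun i _ => ?_
    rw [dif_pos i.2]
  have hsqv : ∀ s : M → ℂ, ∀ x, x = ∑ i : ι, (if h : b i ∉ W then s ⟨i, h⟩ else 0) • b i →
      ∀ k : M, b.repr (μ x x) k = ∑ i : M, s i ^ 2 * A i k := by
    rintro s x rfl k
    rw [mul_sum_self hb, ← hcoef (fun i => s i ^ 2) k]
    congr 2
    refine Finset.sum_congr rfl fun i _ => ?_
    congr 1
    by_cases h : b i ∈ W
    · rw [dif_neg (not_not.mpr h), dif_neg (not_not.mpr h)]; simp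
    · rw [dif_pos h, dif_pos h]
  have hx : ∀ s : M → ℂ, ∀ x, x = ∑ i : ι, (if h : b i ∉ W then s ⟨i, h⟩ else 0) • b i →
      ∀ k : M, b.repr x k = s k := by
    rintro s x rfl k
    rw [repr_sum, dif_pos k.2]
  have hA : IsUnit A.det := by
    rw [isUnit_iff_ne_zero]
    intro h0
    obtain ⟨c, hc0, hc⟩ := (Matrix.exists_vecMul_eq_zero_iff).mpr h0
    choose s hs using fun i : M => IsAlgClosed.exists_pow_nat_eq (c i) (n := 2) (by norm_num)
    have h1 : μ (∑ i : ι, (if h : b i ∉ W then s ⟨i, h⟩ else 0) • b i)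
        (∑ i : ι, (if h : b i ∉ W then s ⟨i, h⟩ else 0) • b i) ∈ W := by
      rw [hG.coordw]
      intro k
      by_cases hk : b k ∈ W
      · right; exact hk
      · left
        rw [hsqv s _ rfl ⟨k, hk⟩]
        have := congrFun hc ⟨k, hk⟩
        rw [Matrix.vecMul, dotProduct] at this
        simp only [hs]
        exact this
    have h2 := hG.nosq _ h1
    rw [hG.coordw] at h2
    apply hc0
    funext k
    rcases h2 k with h3 | h3
    · rw [hx s _ rfl k] at h3
      rw [← hs k, h3]; simp
    · exact absurd h3 k.2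
  obtain ⟨ξ, hξ0, hξ⟩ := exists_solution A hA
  refine ⟨∑ i : ι, (if h : b i ∉ W then ξ ⟨i, h⟩ else 0) • b i, ?_, ?_⟩
  · intro h1
    rw [hG.coordw] at h1
    apply hξ0
    funext k
    rcases h1 k with h3 | h3
    · rwa [hx ξ _ rfl k] at h3
    · exact absurd h3 k.2
  · rw [hG.coordw]
    intro k
    by_cases hk : b k ∈ W
    · right; exact hk
    · left
      rw [map_sub, Finsupp.sub_apply]
      have h1 := hsqv ξ _ rfl ⟨k, hk⟩
      have h2 := hx ξ _ rfl ⟨k, hk⟩
      simp only at h1 h2
      rw [h1, h2, hξ, sub_self]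

/-- Adding one element to an ideal. -/
lemma isSub_sup (hb : IsNat μ b) {W : Submodule ℂ V} (hI : ∀ w ∈ W, ∀ y, μ w y ∈ W) {x : V} {c : ℂ}
    (hx : μ x x - c • x ∈ W) : IsSub μ (W ⊔ Submodule.span ℂ {x}) := by
  intro p hp q hq
  rw [Submodule.mem_sup] at hp hq
  obtain ⟨w, hw, p', hp', rfl⟩ := hp
  obtain ⟨w', hw', q', hq', rfl⟩ := hq
  rw [Submodule.mem_span_singleton] at hp' hq'
  obtain ⟨s, rfl⟩ := hp'
  obtain ⟨t, rfl⟩ := hq'
  have e : μ (w + s • x) (w' + t • x) =
      (μ w (w' + t • x) + s • μ w' x + (s * t) • (μ x x - c • x)) + (s * t * c) • x := by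
    simp only [map_add, LinearMap.add_apply, map_smul, LinearMap.smul_apply, smul_sub, smul_smul]
    rw [mul_comm' hb x w']
    module
  rw [e]
  refine Submodule.add_mem _ (Submodule.mem_sup_left ?_)
    (Submodule.mem_sup_right (Submodule.smul_mem _ _ (Submodule.mem_span_singleton_self x)))
  exact W.add_mem (W.add_mem (hI _ hw _) (W.smul_mem _ (hI _ hw' _))) (W.smul_mem _ hx)

/-- Elements which are idempotent or square-zero modulo `W` have one coordinate outside `W`. -/
lemma single_support (hb : IsNat μ b) (hP : CondP μ) {W : Submodule ℂ V}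
    (hco : ∀ x, x ∈ W ↔ ∀ i, b.repr x i = 0 ∨ b i ∈ W)
    (hI : ∀ w ∈ W, ∀ y, μ w y ∈ W) (hU : U μ 1 ≤ W) {x : V} {c : ℂ} (hx : μ x x - c • x ∈ W) {i : ι}
    (hi : b.repr x i ≠ 0) (hiW : b i ∉ W) : x - b.repr x i • b i ∈ W := by
  classical
  have h1 := coord hb hP (isSub_sup hb hI hx) (hU.trans le_sup_left)
    (Submodule.mem_sup_right (Submodule.mem_span_singleton_self x)) hi
  rw [Submodule.mem_sup] at h1
  obtain ⟨w, hw, p, hp, hwp⟩ := h1
  rw [Submodule.mem_span_singleton] at hp
  obtain ⟨l, rfl⟩ := hp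
  have hl : l ≠ 0 := by
    rintro rfl
    rw [zero_smul, add_zero] at hwp
    rw [hwp] at hw
    exact hiW hw
  rw [hco]
  intro k
  by_cases hk : b k ∈ W
  · right; exact hk
  · left
    by_cases hki : k = i
    · subst hki
      rw [map_sub, map_smul, Finsupp.sub_apply, Finsupp.smul_apply, Basis.repr_self,
        Finsupp.single_eq_same, smul_eq_mul, mul_one, sub_self]
    · rw [map_sub, map_smul, Finsupp.sub_apply, Finsupp.smul_apply, Basis.repr_self,
        Finsupp.single_apply, if_neg (Ne.symm hki), smul_zero, sub_zero]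
      have h2 := ((hco w).mp hw k).resolve_right hk
      have h3 := congrArg (fun v => b.repr v k) hwp
      simp only [map_add, map_smul, Finsupp.add_apply, Finsupp.smul_apply, Basis.repr_self,
        Finsupp.single_apply, if_neg (Ne.symm hki), h2, zero_add, smul_eq_mul] at h3
      exact (mul_eq_zero.mp h3).resolve_left hl

/-- The structure theorem: a non-nilpotent evolution algebra with condition `P` is the direct sum
of the line through an idempotent and a term of the upper annihilating series. -/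
theorem structure_thm (hb : IsNat μ b) (hP : CondP μ) (hnn : ∀ K, U μ K ≠ ⊤) :
    ∃ (e : V) (K : ℕ), 1 ≤ K ∧ U μ K = U μ (K + 1) ∧ μ e e = e ∧ (∀ w ∈ U μ K, μ e w = 0) ∧
      IsCompl (Submodule.span ℂ {e}) (U μ K) := by
  classical
  have : FiniteDimensional ℂ V := Module.Finite.of_basis b
  obtain ⟨K₀, hK₀⟩ := monotone_stabilizes_iff_noetherian.mpr
    (inferInstance : IsNoetherian ℂ V) ⟨U μ, U_mono⟩
  have hK₀' : ∀ m, K₀ ≤ m → U μ K₀ = U μ m := fun m hm => hK₀ m hm
  set K := K₀ + 1 with hK
  have hst : U μ K = U μ (K + 1) := by rw [← hK₀' K (by omega), ← hK₀' (K + 1) (by omega)]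
  set W := U μ K with hW
  have hU1 : U μ 1 ≤ W := U_mono (by omega)
  have hI : ∀ w ∈ W, ∀ y, μ w y ∈ W := by
    intro w hw y
    rw [hst] at hw
    exact hw y
  have hco : ∀ x, x ∈ W ↔ ∀ i, b.repr x i = 0 ∨ b i ∈ W := mem_U_iff hb K
  have hbsq : ∀ i, μ (b i) (b i) ∈ W → b i ∈ W := by
    intro i h
    rw [hst, basis_mem_U_succ hb]; exact h
  have hnosq : ∀ x, μ x x ∈ W → x ∈ W := by
    intro x hx
    by_contra hxW
    have hxW' := hxW
    rw [hco] at hxW
    push Not at hxW
    obtain ⟨i, hi, hiW⟩ := hxW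
    have h1 := single_support hb hP hco hI hU1 (c := 0) (by rw [zero_smul, sub_zero]; exact hx) hi hiW
    apply hiW
    apply hbsq
    have h2 : μ (b i) (b i) = (b.repr x i)⁻¹ • (b.repr x i)⁻¹ • (μ x x -
        (μ (x - b.repr x i • b i) x + b.repr x i • μ (x - b.repr x i • b i) (b i))) := by
      have h3 : μ x x - (μ (x - b.repr x i • b i) x + b.repr x i • μ (x - b.repr x i • b i) (b i)) =
          (b.repr x i * b.repr x i) • μ (b i) (b i) := by
        simp only [map_sub, LinearMap.sub_apply, map_smul, LinearMap.smul_apply, smul_sub, smul_smul]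
        rw [mul_comm' hb x (b i)]
        module
      rw [h3, smul_smul, smul_smul]
      have : (b.repr x i)⁻¹ * (b.repr x i)⁻¹ * (b.repr x i * b.repr x i) = 1 := by field_simp
      rw [this, one_smul]
    rw [h2]
    exact W.smul_mem _ (W.smul_mem _ (W.sub_mem hx (W.add_mem (hI _ h1 _) (W.smul_mem _ (hI _ h1 _)))))
  have hG : Good μ b W := ⟨hco, hI, hnosq⟩
  obtain ⟨x, hxW, hxx⟩ := exists_idem hb hG (hnn K)
  -- the distinguished index
  obtain ⟨i₀, hi₀, hi₀W⟩ : ∃ i, b.repr x i ≠ 0 ∧ b i ∉ W := by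
    have := hxW
    rw [hco] at this
    push Not at this
    exact this
  have hx1 := single_support hb hP hco hI hU1 (c := 1) (by rwa [one_smul]) hi₀ hi₀W
  obtain ⟨α, hα0, hα⟩ : ∃ α : ℂ, α ≠ 0 ∧ μ (b i₀) (b i₀) - α • b i₀ ∈ W := by
    set ξ := b.repr x i₀ with hξ
    refine ⟨ξ⁻¹, inv_ne_zero hi₀, ?_⟩
    have h2 : μ (b i₀) (b i₀) - ξ⁻¹ • b i₀ = (ξ⁻¹ * ξ⁻¹) • ((μ x x - x) + (x - ξ • b i₀) -
        (μ (x - ξ • b i₀) x + ξ • μ (x - ξ • b i₀) (b i₀))) := by
      have h3 : (μ x x - x) + (x - ξ • b i₀) - (μ (x - ξ • b i₀) x + ξ • μ (x - ξ • b i₀) (b i₀)) =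
          (ξ * ξ) • (μ (b i₀) (b i₀) - ξ⁻¹ • b i₀) := by
        simp only [map_sub, LinearMap.sub_apply, map_smul, LinearMap.smul_apply, smul_sub, smul_smul]
        rw [mul_comm' hb x (b i₀)]
        have : ξ * ξ * ξ⁻¹ = ξ := by field_simp
        rw [this]
        module
      rw [h3, smul_smul]
      have : ξ⁻¹ * ξ⁻¹ * (ξ * ξ) = 1 := by field_simp
      rw [this, one_smul]
    rw [h2]
    exact W.smul_mem _ (W.sub_mem (W.add_mem hxx hx1)
      (W.add_mem (hI _ hx1 _) (W.smul_mem _ (hI _ hx1 _))))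
  -- the bigger ideal
  set W' := W ⊔ Submodule.span ℂ {b i₀} with hW'
  have hmemW' : ∀ y, y ∈ W' ↔ y - b.repr y i₀ • b i₀ ∈ W := by
    intro y
    constructor
    · intro hy
      rw [hW', Submodule.mem_sup] at hy
      obtain ⟨w, hw, p, hp, rfl⟩ := hy
      rw [Submodule.mem_span_singleton] at hp
      obtain ⟨l, rfl⟩ := hp
      have hw0 : b.repr w i₀ = 0 := ((hco w).mp hw i₀).resolve_right hi₀W
      rw [map_add, map_smul, Finsupp.add_apply, Finsupp.smul_apply, Basis.repr_self,
        Finsupp.single_eq_same, hw0, zero_add, smul_eq_mul, mul_one, add_sub_cancel_right]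
      exact hw
    · intro hy
      have : y = (y - b.repr y i₀ • b i₀) + b.repr y i₀ • b i₀ := by module
      rw [this]
      exact Submodule.add_mem _ (Submodule.mem_sup_left hy)
        (Submodule.mem_sup_right (Submodule.smul_mem _ _ (Submodule.mem_span_singleton_self _)))
  have hproj0 : ∀ y : V, b.repr (y - b.repr y i₀ • b i₀) i₀ = 0 := by
    intro y
    rw [map_sub, map_smul, Finsupp.sub_apply, Finsupp.smul_apply, Basis.repr_self,
      Finsupp.single_eq_same, smul_eq_mul, mul_one, sub_self]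
  have hproj : ∀ (y : V) (k : ι), k ≠ i₀ → b.repr (y - b.repr y i₀ • b i₀) k = b.repr y k := by
    intro y k hk
    rw [map_sub, map_smul, Finsupp.sub_apply, Finsupp.smul_apply, Basis.repr_self,
      Finsupp.single_apply, if_neg (Ne.symm hk), smul_zero, sub_zero]
  have hbW' : b i₀ ∈ W' := Submodule.mem_sup_right (Submodule.mem_span_singleton_self _)
  have hbsq' : μ (b i₀) (b i₀) ∈ W' := by
    have : μ (b i₀) (b i₀) = (μ (b i₀) (b i₀) - α • b i₀) + α • b i₀ := by module
    rw [this]
    exact Submodule.add_mem _ (Submodule.mem_sup_left hα) (Submodule.smul_mem _ _ hbW')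
  have hbk : ∀ k, k ≠ i₀ → (b k ∈ W' ↔ b k ∈ W) := by
    intro k hk
    rw [hmemW', Basis.repr_self, Finsupp.single_apply, if_neg hk, zero_smul, sub_zero]
  -- killing the `b i₀` coordinate does not change squares modulo `W'`
  have hsqproj : ∀ y : V, μ y y = μ (y - b.repr y i₀ • b i₀) (y - b.repr y i₀ • b i₀) +
      (b.repr y i₀ * b.repr y i₀) • μ (b i₀) (b i₀) := by
    intro y
    set y' := y - b.repr y i₀ • b i₀ with hy'
    have e1 : μ y' (b i₀) = 0 := by
      rw [mul_right_basis hb, hy', hproj0, zero_smul]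
    have e2 : y = y' + b.repr y i₀ • b i₀ := by rw [hy']; module
    have e3 : μ (b i₀) y' = 0 := by rw [mul_comm' hb, e1]
    conv_lhs => rw [e2]
    simp only [map_add, LinearMap.add_apply, map_smul, LinearMap.smul_apply, e1, e3, smul_zero,
      add_zero, zero_add, smul_smul]
  have hG' : Good μ b W' := by
    refine ⟨?_, ?_, ?_⟩
    · intro y
      rw [hmemW', hco]
      constructor
      · intro h k
        by_cases hk : k = i₀
        · right; rw [hk]; exact hbW'
        · rcases h k with h1 | h1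
          · left; rwa [hproj y k hk] at h1
          · right; rw [hbk k hk]; exact h1
      · intro h k
        by_cases hk : k = i₀
        · left; rw [hk]; exact hproj0 y
        · rcases h k with h1 | h1
          · left; rw [hproj y k hk]; exact h1
          · right; rwa [hbk k hk] at h1
    · intro w hw y
      rw [hW', Submodule.mem_sup] at hw
      obtain ⟨w, hw, p, hp, rfl⟩ := hw
      rw [Submodule.mem_span_singleton] at hp
      obtain ⟨l, rfl⟩ := hp
      rw [map_add, LinearMap.add_apply, map_smul, LinearMap.smul_apply, mul_left_basis hb]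
      exact Submodule.add_mem _ (Submodule.mem_sup_left (hI _ hw _))
        (Submodule.smul_mem _ _ (Submodule.smul_mem _ _ hbsq'))
    · intro y hy
      rw [hmemW']
      set y' := y - b.repr y i₀ • b i₀ with hy'
      have h1 : μ y' y' ∈ W' := by
        have : μ y' y' = μ y y - (b.repr y i₀ * b.repr y i₀) • μ (b i₀) (b i₀) := by
          rw [hsqproj y]; module
        rw [this]
        exact Submodule.sub_mem _ hy (Submodule.smul_mem _ _ hbsq')
      rw [hmemW'] at h1
      set φ := b.repr (μ y' y') i₀ with hφ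
      obtain ⟨c, hc⟩ := IsAlgClosed.exists_pow_nat_eq (-φ / α) (n := 2) (by norm_num)
      have e1 : μ y' (b i₀) = 0 := by rw [mul_right_basis hb, hy', hproj0, zero_smul]
      have e3 : μ (b i₀) y' = 0 := by rw [mul_comm' hb, e1]
      have h2 : μ (y' + c • b i₀) (y' + c • b i₀) ∈ W := by
        have h3 : μ (y' + c • b i₀) (y' + c • b i₀) =
            (μ y' y' - φ • b i₀) + c ^ 2 • (μ (b i₀) (b i₀) - α • b i₀) := by
          simp only [map_add, LinearMap.add_apply, map_smul, LinearMap.smul_apply, e1, e3, smul_zero,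
            add_zero, zero_add, smul_smul, smul_sub]
          have h4 : c ^ 2 * α = -φ := by rw [hc]; field_simp
          rw [h4]
          module
        rw [h3]
        exact W.add_mem h1 (W.smul_mem _ hα)
      have h5 := hnosq _ h2
      rw [hco] at h5 ⊢
      intro k
      by_cases hk : k = i₀
      · left; rw [hk]; exact hproj0 y
      · rcases h5 k with h6 | h6
        · left
          rwa [map_add, map_smul, Finsupp.add_apply, Finsupp.smul_apply, Basis.repr_self,
            Finsupp.single_apply, if_neg (Ne.symm hk), smul_zero, add_zero] at h6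
        · right; exact h6
  have hW'top : W' = ⊤ := by
    by_contra hne
    obtain ⟨y, hyW', hyy⟩ := exists_idem hb hG' hne
    set y' := y - b.repr y i₀ • b i₀ with hy'
    have hy'W' : y' ∉ W' := by
      intro h
      apply hyW'
      have : y = y' + b.repr y i₀ • b i₀ := by rw [hy']; module
      rw [this]
      exact Submodule.add_mem _ h (Submodule.smul_mem _ _ hbW')
    have h1 : μ y' y' - y' ∈ W' := by
      have : μ y' y' - y' = (μ y y - y) - (b.repr y i₀ * b.repr y i₀) • μ (b i₀) (b i₀) +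
          b.repr y i₀ • b i₀ := by
        rw [hsqproj y, ← hy']
        have e2 : y = y' + b.repr y i₀ • b i₀ := by rw [hy']; module
        have e4 : (b.repr y i₀ * b.repr y i₀) = (b.repr y i₀ * b.repr y i₀) := rfl
        rw [show μ y' y' + (b.repr y i₀ * b.repr y i₀) • μ (b i₀) (b i₀) - y =
          μ y' y' + (b.repr y i₀ * b.repr y i₀) • μ (b i₀) (b i₀) - (y' + b.repr y i₀ • b i₀) from by
            rw [← e2]]
        module
      rw [this]
      exact Submodule.add_mem _ (Submodule.sub_mem _ hyy (Submodule.smul_mem _ _ hbsq'))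
        (Submodule.smul_mem _ _ hbW')
    rw [hmemW'] at h1
    set φ := b.repr (μ y' y' - y') i₀ with hφ
    have e1 : μ y' (b i₀) = 0 := by rw [mul_right_basis hb, hy', hproj0, zero_smul]
    have e3 : μ (b i₀) y' = 0 := by rw [mul_comm' hb, e1]
    obtain ⟨c, hc0, hc⟩ : ∃ c : ℂ, c ≠ 0 ∧ α * c ^ 2 - c + φ = 0 := by
      by_cases hφ0 : φ = 0
      · refine ⟨α⁻¹, inv_ne_zero hα0, ?_⟩
        rw [hφ0]; field_simp; ring
      · obtain ⟨d, hd⟩ := IsAlgClosed.exists_pow_nat_eq (1 - 4 * α * φ) (n := 2) (by norm_num)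
        have hroot : α * ((1 + d) / (2 * α)) ^ 2 - (1 + d) / (2 * α) + φ = 0 := by
          field_simp
          linear_combination hd
        refine ⟨(1 + d) / (2 * α), ?_, hroot⟩
        intro h0
        rw [h0] at hroot
        apply hφ0
        linear_combination hroot
    have h2 : μ (y' + c • b i₀) (y' + c • b i₀) - (1 : ℂ) • (y' + c • b i₀) ∈ W := by
      have h3 : μ (y' + c • b i₀) (y' + c • b i₀) - (1 : ℂ) • (y' + c • b i₀) =
          (μ y' y' - y' - φ • b i₀) + c ^ 2 • (μ (b i₀) (b i₀) - α • b i₀) := by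
        simp only [map_add, LinearMap.add_apply, map_smul, LinearMap.smul_apply, e1, e3, smul_zero,
          add_zero, zero_add, smul_smul, smul_sub]
        have h4 : c ^ 2 * α = c - φ := by linear_combination hc
        rw [h4]
        module
      rw [h3]
      exact W.add_mem h1 (W.smul_mem _ hα)
    have hcoordc : b.repr (y' + c • b i₀) i₀ = c := by
      rw [map_add, map_smul, Finsupp.add_apply, Finsupp.smul_apply, Basis.repr_self,
        Finsupp.single_eq_same, hy', hproj0, zero_add, smul_eq_mul, mul_one]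
    have h5 := single_support hb hP hco hI hU1 h2 (i := i₀) (by rw [hcoordc]; exact hc0) hi₀W
    rw [hcoordc, add_sub_cancel_right] at h5
    exact hy'W' (Submodule.mem_sup_left h5)
  -- correct `b i₀` to an eigenvector
  have hdesc : ∀ j, j ≤ K → ∃ x, x - b i₀ ∈ W ∧ μ x x - α • x ∈ U μ (K - j) := by
    intro j
    induction j with
    | zero =>
      intro _
      exact ⟨b i₀, by rw [sub_self]; exact W.zero_mem, by rw [Nat.sub_zero]; exact hα⟩
    | succ j ih =>
      intro hj
      obtain ⟨x, hx, hxx⟩ := ih (by omega)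
      have hlev : K - j = (K - (j + 1)) + 1 := by omega
      set v := μ x x - α • x with hv
      have hvU : v ∈ U μ (K - (j + 1) + 1) := by rw [← hlev]; exact hxx
      refine ⟨x + α⁻¹ • v, ?_, ?_⟩
      · have : x + α⁻¹ • v - b i₀ = (x - b i₀) + α⁻¹ • v := by module
        rw [this]
        exact W.add_mem hx (W.smul_mem _ (U_mono (by omega : K - j ≤ K) hxx))
      · have h3 : μ (x + α⁻¹ • v) (x + α⁻¹ • v) - α • (x + α⁻¹ • v) =
            α⁻¹ • μ v x + α⁻¹ • μ v x + (α⁻¹ * α⁻¹) • μ v v := by
          have h4 : μ x x = v + α • x := by rw [hv]; module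
          simp only [map_add, LinearMap.add_apply, map_smul, LinearMap.smul_apply, smul_smul,
            smul_add]
          rw [mul_comm' hb x v, h4]
          have h5 : α * α⁻¹ = 1 := mul_inv_cancel₀ hα0
          rw [h5]
          module
        rw [h3]
        exact Submodule.add_mem _ (Submodule.add_mem _ (Submodule.smul_mem _ _ (hvU _))
          (Submodule.smul_mem _ _ (hvU _))) (Submodule.smul_mem _ _ (hvU _))
  obtain ⟨x, hxb, hxx⟩ := hdesc K le_rfl
  rw [Nat.sub_self, mem_U_zero, sub_eq_zero] at hxx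
  have hxcoord : b.repr x i₀ = 1 := by
    have h1 := ((hco _).mp hxb i₀).resolve_right hi₀W
    rw [map_sub, Finsupp.sub_apply, Basis.repr_self, Finsupp.single_eq_same, sub_eq_zero] at h1
    exact h1
  have hi₀1 : b i₀ ∉ U μ 1 := fun h => hi₀W (hU1 h)
  have h6 := single_support hb hP (mem_U_iff hb 1) (W := U μ 1)
    (fun w hw y => U_mono (Nat.zero_le 1) (hw y)) le_rfl (x := x) (c := α)
    (by rw [hxx, sub_self]; exact Submodule.zero_mem _) (i := i₀) (by rw [hxcoord]; exact one_ne_zero) hi₀1
  rw [hxcoord, one_smul] at h6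
  refine ⟨α⁻¹ • x, K, by omega, hst, ?_, ?_, ?_⟩
  · simp only [map_smul, LinearMap.smul_apply, hxx, smul_smul]
    have : α⁻¹ * (α⁻¹ * α) = α⁻¹ := by field_simp
    rw [this]
  · intro w hw
    have h7 : μ x w = μ (x - b i₀) w + μ (b i₀) w := by
      rw [map_sub, LinearMap.sub_apply]; module
    have h8 : μ (x - b i₀) w = 0 := by
      have := h6 w
      rwa [mem_U_zero] at this
    have h9 : μ (b i₀) w = 0 := by
      rw [mul_left_basis hb, ((hco _).mp hw i₀).resolve_right hi₀W, zero_smul]
    rw [map_smul, LinearMap.smul_apply, h7, h8, h9, add_zero, smul_zero]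
  · constructor
    · rw [Submodule.disjoint_def]
      intro v hv hvW
      rw [Submodule.mem_span_singleton] at hv
      obtain ⟨l, rfl⟩ := hv
      have h7 := ((hco _).mp hvW i₀).resolve_right hi₀W
      rw [map_smul, map_smul, Finsupp.smul_apply, Finsupp.smul_apply, hxcoord, smul_eq_mul,
        smul_eq_mul, mul_one] at h7
      have h8 : l = 0 := (mul_eq_zero.mp h7).resolve_right (inv_ne_zero hα0)
      rw [h8, zero_smul]
    · rw [codisjoint_iff, eq_top_iff, ← hW'top, hW']
      refine sup_le le_sup_right ?_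
      rw [Submodule.span_singleton_le_iff_mem, Submodule.mem_sup]
      refine ⟨x, ?_, -(x - b i₀), W.neg_mem hxb, by module⟩
      rw [Submodule.mem_span_singleton]
      exact ⟨α, by rw [smul_smul, mul_inv_cancel₀ hα0, one_smul]⟩

end Pool.Agent.Q11.Evo
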