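import Mathlib
import Pool.Agent.Q11.Evo.Struct

/-!
# The nilpotent part
-/

set_option autoImplicit false

namespace Pool.Agent.Q11.Evo

open Module

variable {V : Type*} [AddCommGroup V] [Module ℂ V] {μ : V →ₗ[ℂ] V →ₗ[ℂ] V}
variable {ι : Type*} [Fintype ι] {b : Basis ι ℂ V}

lemma U_ideal (k : ℕ) : ∀ w ∈ U μ k, ∀ y, μ w y ∈ U μ k := fun _ hw y => U_le_succ k hw y

/-- Key lemma: squares go down by exactly one step. -/
lemma sq_notMem (hb : IsNat μ b) (hP : CondP μ) (k : ℕ) {y : V} (hy : y ∉ U μ (k + 1)) :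
    μ y y ∉ U μ k := by
  intro h
  cases k with
  | zero =>
    rw [mem_U_zero] at h
    exact hy (sq_zero hP h)
  | succ k =>
    have hy' := hy
    rw [mem_U_iff hb] at hy'
    push Not at hy'
    obtain ⟨i, hi, hiU⟩ := hy'
    have hiU' : b i ∉ U μ (k + 1) := fun h => hiU (U_le_succ _ h)
    have h1 := single_support hb hP (mem_U_iff hb (k + 1)) (U_ideal (k + 1)) (U_mono (by omega))
      (x := y) (c := 0) (by rw [zero_smul, sub_zero]; exact h) hi hiU'
    apply hiU
    rw [basis_mem_U_succ hb]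
    have h3 : μ y y - (μ (y - b.repr y i • b i) y + b.repr y i • μ (y - b.repr y i • b i) (b i)) =
        (b.repr y i * b.repr y i) • μ (b i) (b i) := by
      simp only [map_sub, LinearMap.sub_apply, map_smul, LinearMap.smul_apply, smul_sub, smul_smul]
      rw [mul_comm' hb y (b i)]
      module
    have h2 : μ (b i) (b i) = ((b.repr y i)⁻¹ * (b.repr y i)⁻¹) • (μ y y -
        (μ (y - b.repr y i • b i) y + b.repr y i • μ (y - b.repr y i • b i) (b i))) := by
      rw [h3, smul_smul]
      have : (b.repr y i)⁻¹ * (b.repr y i)⁻¹ * (b.repr y i * b.repr y i) = 1 := by field_simp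
      rw [this, one_smul]
    rw [h2]
    exact Submodule.smul_mem _ _ (Submodule.sub_mem _ h (Submodule.add_mem _ (U_ideal _ _ h1 _)
      (Submodule.smul_mem _ _ (U_ideal _ _ h1 _))))

lemma sq_iter_notMem (hb : IsNat μ b) (hP : CondP μ) (j : ℕ) : ∀ (l : ℕ) {y : V},
    y ∉ U μ (j + l) → sq μ y j ∉ U μ l := by
  induction j with
  | zero => intro l y hy; rwa [zero_add] at hy
  | succ j ih =>
    intro l y hy
    have h1 : y ∉ U μ (j + (l + 1)) := by
      have e : j + (l + 1) = j + 1 + l := by ring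
      rwa [e]
    exact sq_notMem hb hP l (ih (l + 1) h1)

/-- Each later step of the annihilating series contains at most one new basis vector. -/
lemma unique_idx (hb : IsNat μ b) (hP : CondP μ) {k : ℕ} (hk : 1 ≤ k) {i j : ι}
    (hi : b i ∈ U μ (k + 1)) (hj : b j ∈ U μ (k + 1)) (hi' : b i ∉ U μ k) (hj' : b j ∉ U μ k) :
    i = j := by
  by_contra hij
  have h1 : μ (b i + b j) (b i + b j) - (0 : ℂ) • (b i + b j) ∈ U μ k := by
    rw [zero_smul, sub_zero]
    simp only [map_add, LinearMap.add_apply, hb i j hij, hb j i (Ne.symm hij), add_zero, zero_add]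
    exact Submodule.add_mem _ ((basis_mem_U_succ hb i k).mp hi) ((basis_mem_U_succ hb j k).mp hj)
  have hc : b.repr (b i + b j) i = 1 := by
    rw [map_add, Finsupp.add_apply, Basis.repr_self, Basis.repr_self, Finsupp.single_eq_same,
      Finsupp.single_eq_of_ne hij, add_zero]
  have h2 := single_support hb hP (mem_U_iff hb k) (U_ideal k) (U_mono hk) h1 (i := i)
    (by rw [hc]; exact one_ne_zero) hi'
  rw [hc, one_smul, add_sub_cancel_left] at h2
  exact hj' h2

lemma U_succ_le_sup (hb : IsNat μ b) (hP : CondP μ) {k : ℕ} (hk : 1 ≤ k) :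
    ∃ v, U μ (k + 1) ≤ U μ k ⊔ Submodule.span ℂ {v} := by
  classical
  by_cases h : ∃ i, b i ∈ U μ (k + 1) ∧ b i ∉ U μ k
  · obtain ⟨i, hi, hi'⟩ := h
    refine ⟨b i, ?_⟩
    intro x hx
    rw [mem_U_iff hb] at hx
    rw [← b.sum_repr x]
    refine Submodule.sum_mem _ fun j _ => ?_
    rcases hx j with h1 | h1
    · rw [h1, zero_smul]; exact Submodule.zero_mem _
    · by_cases hj : b j ∈ U μ k
      · exact Submodule.mem_sup_left (Submodule.smul_mem _ _ hj)
      · have : i = j := unique_idx hb hP hk hi h1 hi' hj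
        subst this
        exact Submodule.mem_sup_right (Submodule.smul_mem _ _ (Submodule.mem_span_singleton_self _))
  · push Not at h
    refine ⟨0, ?_⟩
    refine le_trans ?_ le_sup_left
    intro x hx
    rw [mem_U_iff hb] at hx ⊢
    intro i
    rcases hx i with h1 | h1
    · left; exact h1
    · right; exact h i h1

lemma finrank_U_le (hb : IsNat μ b) (hP : CondP μ) (k : ℕ) :
    finrank ℂ (U μ (k + 1)) ≤ finrank ℂ (U μ 1) + k := by
  have : FiniteDimensional ℂ V := Module.Finite.of_basis b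
  induction k with
  | zero => simp
  | succ k ih =>
    obtain ⟨v, hv⟩ := U_succ_le_sup hb hP (k := k + 1) (by omega)
    have h1 := Submodule.finrank_mono hv
    have h2 := Submodule.finrank_add_le_finrank_add_finrank (U μ (k + 1)) (Submodule.span ℂ {v})
    have h3 : finrank ℂ (Submodule.span ℂ {v}) ≤ 1 := by
      have := finrank_span_le_card (R := ℂ) ({v} : Set V)
      simpa using this
    omega

/-- The span of the squares of the basis vectors in the `k`-th term. -/
def S (μ : V →ₗ[ℂ] V →ₗ[ℂ] V) (b : Basis ι ℂ V) (k : ℕ) : Submodule ℂ V :=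
  Submodule.span ℂ ((fun i => μ (b i) (b i)) '' {i | b i ∈ U μ k})

lemma S_le (hb : IsNat μ b) (k : ℕ) : S μ b (k + 1) ≤ U μ k := by
  unfold S
  rw [Submodule.span_le]
  rintro _ ⟨i, hi, rfl⟩
  exact (basis_mem_U_succ hb i k).mp hi

lemma mul_mem_S (hb : IsNat μ b) {k : ℕ} {x : V} (hx : x ∈ U μ k) (y : V) : μ x y ∈ S μ b k := by
  rw [mul_eq hb]
  refine Submodule.sum_mem _ fun i _ => ?_
  rcases (mem_U_iff hb k x).mp hx i with h | h
  · rw [h, zero_mul, zero_smul]; exact Submodule.zero_mem _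
  · exact Submodule.smul_mem _ _ (Submodule.subset_span ⟨i, h, rfl⟩)

lemma S_inf_U1 (hb : IsNat μ b) (hP : CondP μ) : ∃ z ∈ U μ 1, ∀ k, ∀ v ∈ S μ b (k + 1), v ∈ U μ 1 →
    v ∈ Submodule.span ℂ {z} := by
  classical
  -- the vector `z`
  obtain ⟨z, hz1, hz⟩ : ∃ z ∈ U μ 1, ∀ v ∈ S μ b 2, v ∈ Submodule.span ℂ {z} := by
    by_cases h : ∃ i, b i ∈ U μ 2 ∧ b i ∉ U μ 1
    · obtain ⟨i, hi, hi'⟩ := h
      refine ⟨μ (b i) (b i), (basis_mem_U_succ hb i 1).mp hi, ?_⟩
      have : S μ b 2 ≤ Submodule.span ℂ {μ (b i) (b i)} := by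
        unfold S
        rw [Submodule.span_le]
        rintro _ ⟨j, hj, rfl⟩
        by_cases hj1 : b j ∈ U μ 1
        · have h0 : μ (b j) (b j) = 0 := by
            have := (basis_mem_U_succ hb j 0).mp hj1
            rwa [mem_U_zero] at this
          simp only [h0]
          exact Submodule.zero_mem _
        · have : i = j := unique_idx hb hP le_rfl hi hj hi' hj1
          subst this
          exact Submodule.mem_span_singleton_self _
      exact fun v hv => this hv
    · push Not at h
      refine ⟨0, Submodule.zero_mem _, ?_⟩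
      have : S μ b 2 ≤ Submodule.span ℂ {0} := by
        unfold S
        rw [Submodule.span_le]
        rintro _ ⟨j, hj, rfl⟩
        have h0 : μ (b j) (b j) = 0 := by
          have := (basis_mem_U_succ hb j 0).mp (h j hj)
          rwa [mem_U_zero] at this
        simp only [h0]
        exact Submodule.zero_mem _
      exact fun v hv => this hv
  refine ⟨z, hz1, ?_⟩
  intro k
  cases k with
  | zero =>
    intro v hv _
    have h1 := S_le hb 0 hv
    rw [mem_U_zero] at h1
    rw [h1]; exact Submodule.zero_mem _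
  | succ k =>
    induction k with
    | zero => intro v hv _; exact hz v hv
    | succ k ih =>
      intro v hv hvU
      by_cases h : ∃ j, b j ∈ U μ (k + 3) ∧ b j ∉ U μ (k + 2)
      · obtain ⟨j, hj, hj'⟩ := h
        have hsub : ((fun i => μ (b i) (b i)) '' {i | b i ∈ U μ (k + 3)}) ⊆
            insert (μ (b j) (b j)) ((fun i => μ (b i) (b i)) '' {i | b i ∈ U μ (k + 2)}) := by
          rintro _ ⟨i, hi, rfl⟩
          by_cases hi' : b i ∈ U μ (k + 2)
          · right; exact ⟨i, hi', rfl⟩
          · left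
            have : i = j := unique_idx hb hP (by omega) hi hj hi' hj'
            rw [this]
        have hv' := Submodule.span_mono (R := ℂ) hsub hv
        rw [Submodule.mem_span_insert] at hv'
        obtain ⟨c, s, hs, hvs⟩ := hv'
        have hs' : s ∈ S μ b (k + 2) := hs
        by_cases hc : c = 0
        · rw [hc, zero_smul, zero_add] at hvs
          rw [hvs] at hvU ⊢
          exact ih s hs' hvU
        · exfalso
          apply hj'
          rw [basis_mem_U_succ hb]
          have h5 : μ (b j) (b j) = c⁻¹ • (v - s) := by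
            rw [hvs, add_sub_cancel_right, smul_smul, inv_mul_cancel₀ hc, one_smul]
          rw [h5]
          exact Submodule.smul_mem _ _ (Submodule.sub_mem _ (U_mono (by omega) hvU)
            (S_le hb (k + 1) hs'))
      · push Not at h
        have hsub : ((fun i => μ (b i) (b i)) '' {i | b i ∈ U μ (k + 3)}) ⊆
            ((fun i => μ (b i) (b i)) '' {i | b i ∈ U μ (k + 2)}) := by
          rintro _ ⟨i, hi, rfl⟩
          exact ⟨i, h i hi, rfl⟩
        exact ih v (Submodule.span_mono (R := ℂ) hsub hv) hvU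

/-- The splitting of the nilpotent part. -/
lemma exists_split (hb : IsNat μ b) (hP : CondP μ) {K : ℕ} (hK : 1 ≤ K) :
    ∃ F C : Submodule ℂ V, C ≤ U μ 1 ∧ S μ b K ≤ F ∧ F ⊔ C = U μ K ∧ Disjoint F C ∧
      finrank ℂ (U μ 1) ≤ finrank ℂ C + 1 := by
  have hfd : FiniteDimensional ℂ V := Module.Finite.of_basis b
  obtain ⟨z, hz1, hz⟩ := S_inf_U1 hb hP
  obtain ⟨K, rfl⟩ : ∃ K', K = K' + 1 := ⟨K - 1, by omega⟩
  obtain ⟨C₀, hC₀⟩ := (Submodule.span ℂ {z}).exists_isCompl
  set C := C₀ ⊓ U μ 1 with hC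
  have hzU : Submodule.span ℂ {z} ≤ U μ 1 := by
    rw [Submodule.span_singleton_le_iff_mem]; exact hz1
  have hCsup : Submodule.span ℂ {z} ⊔ C = U μ 1 := by
    rw [hC, ← sup_inf_assoc_of_le C₀ hzU, hC₀.sup_eq_top, top_inf_eq]
  have hCW : C ≤ U μ (K + 1) := inf_le_right.trans (U_mono (by omega))
  have hdisj : Disjoint C (S μ b (K + 1)) := by
    rw [Submodule.disjoint_def]
    intro v hvC hvS
    have h1 := hz K v hvS hvC.2
    exact (Submodule.disjoint_def.mp hC₀.disjoint) v h1 hvC.1
  obtain ⟨G, hG⟩ := (C ⊔ S μ b (K + 1)).exists_isCompl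
  have hSW : S μ b (K + 1) ≤ U μ (K + 1) := (S_le hb K).trans (U_le_succ K)
  refine ⟨(S μ b (K + 1) ⊔ G) ⊓ U μ (K + 1), C, inf_le_right, le_inf le_sup_left hSW, ?_, ?_, ?_⟩
  · rw [sup_comm, ← sup_inf_assoc_of_le _ hCW, ← sup_assoc, hG.sup_eq_top, top_inf_eq]
  · have h1 : Disjoint C (S μ b (K + 1) ⊔ G) :=
      hdisj.disjoint_sup_right_of_disjoint_sup_left hG.disjoint
    exact (h1.symm).mono_left inf_le_left
  · have h2 := Submodule.finrank_add_le_finrank_add_finrank (Submodule.span ℂ {z}) C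
    rw [hCsup] at h2
    have h3 : finrank ℂ (Submodule.span ℂ {z}) ≤ 1 := by
      have := finrank_span_le_card (R := ℂ) ({z} : Set V)
      simpa using this
    omega

end Pool.Agent.Q11.Evo
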