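import Mathlib
import Pool.Agent.Q11.Evo.Nil

/-!
# Bundled complex algebras, direct sums and isomorphisms
-/

set_option autoImplicit false

namespace Pool.Agent.Q11.Evo

open Module

/-- A (not necessarily associative) complex algebra. -/
structure CAlg where
  carrier : Type
  [acg : AddCommGroup carrier]
  [mod : Module ℂ carrier]
  mul : carrier →ₗ[ℂ] carrier →ₗ[ℂ] carrier

attribute [instance] CAlg.acg CAlg.mod

/-- Isomorphism of algebras. -/
def Iso (A B : CAlg) : Prop :=
  ∃ f : A.carrier ≃ₗ[ℂ] B.carrier, ∀ x y, f (A.mul x y) = B.mul (f x) (f y)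

/-- `ES₁`: the one-dimensional algebra with `e e = e`. -/
def ES1 : CAlg where
  carrier := ℂ
  mul := LinearMap.mul ℂ ℂ

/-- `ℂ^m`: the `m`-dimensional algebra with zero product. -/
def null (m : ℕ) : CAlg where
  carrier := Fin m → ℂ
  mul := 0

/-- The direct sum. -/
def dsum (A B : CAlg) : CAlg where
  carrier := A.carrier × B.carrier
  mul := LinearMap.mk₂ ℂ (fun x y => (A.mul x.1 y.1, B.mul x.2 y.2))
    (by intro x x' y; simp) (by intro c x y; simp) (by intro x y y'; simp) (by intro c x y; simp)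

/-- The class `ZN^s`: the nilpotent `s`-dimensional evolution algebras of the largest possible
index of nilpotency. -/
def InZN (s : ℕ) (A : CAlg) : Prop :=
  IsEvo s A.mul ∧ IsNilp A.mul ∧
    ∀ B : CAlg, IsEvo s B.mul → IsNilp B.mul → nilIndex B.mul ≤ nilIndex A.mul

lemma dsum_mul (A B : CAlg) (x y : (dsum A B).carrier) :
    (dsum A B).mul x y = (A.mul x.1 y.1, B.mul x.2 y.2) := rfl

lemma ES1_mul (x y : ES1.carrier) : ES1.mul x y = (show ℂ from x) * (show ℂ from y) := rfl

lemma null_mul (m : ℕ) (x y : (null m).carrier) : (null m).mul x y = 0 := rfl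

lemma Iso.symm {A B : CAlg} (h : Iso A B) : Iso B A := by
  obtain ⟨f, hf⟩ := h
  refine ⟨f.symm, fun x y => ?_⟩
  rw [LinearEquiv.symm_apply_eq, hf, f.apply_symm_apply, f.apply_symm_apply]

/-- A subalgebra as an algebra. -/
def subAlg (A : CAlg) (F : Submodule ℂ A.carrier) (h : IsSub A.mul F) : CAlg where
  carrier := F
  mul := LinearMap.mk₂ ℂ (fun x y => ⟨A.mul x y, h _ x.2 _ y.2⟩)
    (by intro x x' y; ext; simp) (by intro c x y; ext; simp)
    (by intro x y y'; ext; simp) (by intro c x y; ext; simp)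

lemma subAlg_mul (A : CAlg) (F : Submodule ℂ A.carrier) (h : IsSub A.mul F)
    (x y : (subAlg A F h).carrier) :
    ((show F from (subAlg A F h).mul x y) : A.carrier) = A.mul (show F from x) (show F from y) := rfl

lemma subAlg_U (A : CAlg) (F : Submodule ℂ A.carrier) (h : IsSub A.mul F) (k : ℕ) :
    ∀ x : F, (x : A.carrier) ∈ U A.mul k → x ∈ U (subAlg A F h).mul k := by
  induction k with
  | zero =>
    intro x hx
    rw [mem_U_zero] at hx
    have : x = 0 := Subtype.ext hx
    rw [this]
    exact (U (subAlg A F h).mul 0).zero_mem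
  | succ k ih =>
    intro x hx y
    exact ih _ (hx (show F from y))

lemma subAlg_sq (A : CAlg) (F : Submodule ℂ A.carrier) (h : IsSub A.mul F) (y : F) (j : ℕ) :
    ((show F from sq (subAlg A F h).mul y j) : A.carrier) = sq A.mul (y : A.carrier) j := by
  induction j with
  | zero => rfl
  | succ j ih =>
    change A.mul (show F from sq (subAlg A F h).mul y j) (show F from sq (subAlg A F h).mul y j) =
      A.mul (sq A.mul (y : A.carrier) j) (sq A.mul (y : A.carrier) j)
    rw [ih]

/-- A quotient of an evolution algebra is an evolution algebra. -/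
lemma isEvo_of_surj {V W : Type*} [AddCommGroup V] [Module ℂ V] [AddCommGroup W] [Module ℂ W]
    {μ : V →ₗ[ℂ] V →ₗ[ℂ] V} {ν : W →ₗ[ℂ] W →ₗ[ℂ] W} {ι : Type*} [Fintype ι] {b : Basis ι ℂ V}
    (hb : IsNat μ b) (f : V →ₗ[ℂ] W) (hf : Function.Surjective f)
    (hmul : ∀ x y, f (μ x y) = ν (f x) (f y)) : IsEvo (finrank ℂ W) ν := by
  obtain ⟨κ, a, ha, hspan, hli⟩ := exists_linearIndependent' ℂ (fun i => f (b i))
  have htop : ⊤ ≤ Submodule.span ℂ (Set.range ((fun i => f (b i)) ∘ a)) := by
    rw [hspan]
    have h1 : Set.range (fun i => f (b i)) = f '' Set.range b := by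
      rw [← Set.range_comp]; rfl
    rw [h1, Submodule.span_image, b.span_eq, Submodule.map_top, LinearMap.range_eq_top.mpr hf]
  have : Finite κ := Finite.of_injective a ha
  have : Fintype κ := Fintype.ofFinite κ
  let c : Basis κ ℂ W := Basis.mk hli htop
  have hcard : Fintype.card κ = finrank ℂ W := (finrank_eq_card_basis c).symm
  let e : κ ≃ Fin (finrank ℂ W) := Fintype.equivFinOfCardEq hcard
  refine ⟨c.reindex e, ?_⟩
  intro i j hij
  rw [Basis.reindex_apply, Basis.reindex_apply]
  simp only [c, Basis.mk_apply, Function.comp]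
  rw [← hmul, hb, map_zero]
  intro h
  exact hij (e.symm.injective (ha h))

end Pool.Agent.Q11.Evo
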