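import Mathlib
import Pool.Agent.Q11.Evo.Bundled

/-!
# The classification
-/

set_option autoImplicit false

namespace Pool.Agent.Q11.Evo

open Module

/-- Assembling an isomorphism with `ES₁ ⊕ ℂ^m`. -/
lemma iso_one (E : CAlg) [FiniteDimensional ℂ E.carrier] (hc : ∀ x y, E.mul x y = E.mul y x)
    {e : E.carrier} (he0 : e ≠ 0) (hee : E.mul e e = e) {C : Submodule ℂ E.carrier}
    (heC : ∀ w ∈ C, E.mul e w = 0) (hC : C ≤ U E.mul 1) (hcompl : IsCompl (Submodule.span ℂ {e}) C)
    {m : ℕ} (hm : finrank ℂ C = m) : Iso E (dsum ES1 (null m)) := by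
  apply Iso.symm
  let φ : (Fin m → ℂ) ≃ₗ[ℂ] C := LinearEquiv.ofFinrankEq _ _ (by rw [hm, finrank_fin_fun])
  have hCm : ∀ w ∈ C, ∀ y, E.mul w y = 0 := by
    intro w hw y
    have := hC hw y
    rwa [mem_U_zero] at this
  let g : (ℂ × (Fin m → ℂ)) →ₗ[ℂ] E.carrier :=
    LinearMap.coprod (LinearMap.toSpanSingleton ℂ _ e) (C.subtype ∘ₗ φ.toLinearMap)
  have hg : ∀ x : ℂ × (Fin m → ℂ), g x = x.1 • e + (φ x.2 : E.carrier) := by
    intro x
    simp [g]
  have hbij : Function.Bijective g := by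
    constructor
    · rw [← LinearMap.ker_eq_bot, eq_bot_iff]
      intro x hx
      rw [LinearMap.mem_ker, hg] at hx
      have h1 : x.1 • e = -(φ x.2 : E.carrier) := eq_neg_of_add_eq_zero_left hx
      have h2 : x.1 • e ∈ C := by rw [h1]; exact C.neg_mem (φ x.2).2
      have h3 := (Submodule.disjoint_def.mp hcompl.disjoint) (x.1 • e)
        (Submodule.smul_mem _ _ (Submodule.mem_span_singleton_self _)) h2
      have h4 : x.1 = 0 := (smul_eq_zero.mp h3).resolve_right he0
      have h5 : (φ x.2 : E.carrier) = 0 := by rw [h3, zero_add] at hx; exact hx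
      have h6 : x.2 = 0 := by
        have : φ x.2 = 0 := Subtype.ext h5
        exact (LinearEquiv.map_eq_zero_iff φ).mp this
      rw [Submodule.mem_bot]
      exact Prod.ext h4 h6
    · intro v
      have hv : v ∈ Submodule.span ℂ {e} ⊔ C := by rw [hcompl.sup_eq_top]; trivial
      rw [Submodule.mem_sup] at hv
      obtain ⟨p, hp, w, hw, rfl⟩ := hv
      rw [Submodule.mem_span_singleton] at hp
      obtain ⟨a, rfl⟩ := hp
      refine ⟨(a, φ.symm ⟨w, hw⟩), ?_⟩
      rw [hg]
      simp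
  have hmul : ∀ x y : ℂ × (Fin m → ℂ), g (x.1 * y.1, 0) = E.mul (g x) (g y) := by
    intro x y
    rw [hg, hg, hg]
    simp only [map_add, LinearMap.add_apply, map_smul, LinearMap.smul_apply, hee, map_zero,
      ZeroMemClass.coe_zero, add_zero]
    rw [heC _ (φ y.2).2, hc (φ x.2 : E.carrier) e, heC _ (φ x.2).2, hCm _ (φ x.2).2]
    simp only [add_zero, smul_zero, smul_smul, mul_comm]
  exact ⟨LinearEquiv.ofBijective g hbij, fun x y => hmul x y⟩

/-- Assembling an isomorphism with `ES₁ ⊕ F ⊕ ℂ^m`. -/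
lemma iso_two (E : CAlg) [FiniteDimensional ℂ E.carrier] (hc : ∀ x y, E.mul x y = E.mul y x)
    {e : E.carrier} (he0 : e ≠ 0) (hee : E.mul e e = e) {F C : Submodule ℂ E.carrier}
    (hF : IsSub E.mul F) (heW : ∀ w ∈ F ⊔ C, E.mul e w = 0) (hC : C ≤ U E.mul 1)
    (hFC : Disjoint F C) (hcompl : IsCompl (Submodule.span ℂ {e}) (F ⊔ C))
    {m : ℕ} (hm : finrank ℂ C = m) : Iso E (dsum ES1 (dsum (subAlg E F hF) (null m))) := by
  apply Iso.symm
  let φ : (Fin m → ℂ) ≃ₗ[ℂ] C := LinearEquiv.ofFinrankEq _ _ (by rw [hm, finrank_fin_fun])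
  have hCm : ∀ w ∈ C, ∀ y, E.mul w y = 0 := by
    intro w hw y
    have := hC hw y
    rwa [mem_U_zero] at this
  let g : (ℂ × (F × (Fin m → ℂ))) →ₗ[ℂ] E.carrier :=
    LinearMap.coprod (LinearMap.toSpanSingleton ℂ _ e)
      (LinearMap.coprod F.subtype (C.subtype ∘ₗ φ.toLinearMap))
  have hg : ∀ x : ℂ × (F × (Fin m → ℂ)), g x = x.1 • e + ((x.2.1 : E.carrier) + (φ x.2.2 : E.carrier)) := by
    intro x
    simp [g]
  have hbij : Function.Bijective g := by
    constructor
    · rw [← LinearMap.ker_eq_bot, eq_bot_iff]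
      intro x hx
      rw [LinearMap.mem_ker, hg] at hx
      have h1 : x.1 • e = -((x.2.1 : E.carrier) + (φ x.2.2 : E.carrier)) :=
        eq_neg_of_add_eq_zero_left hx
      have h2 : x.1 • e ∈ F ⊔ C := by
        rw [h1]
        exact Submodule.neg_mem _ (Submodule.add_mem _ (Submodule.mem_sup_left x.2.1.2)
          (Submodule.mem_sup_right (φ x.2.2).2))
      have h3 := (Submodule.disjoint_def.mp hcompl.disjoint) (x.1 • e)
        (Submodule.smul_mem _ _ (Submodule.mem_span_singleton_self _)) h2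
      have h4 : x.1 = 0 := (smul_eq_zero.mp h3).resolve_right he0
      have h5 : (x.2.1 : E.carrier) + (φ x.2.2 : E.carrier) = 0 := by
        rw [h3, zero_add] at hx; exact hx
      have h7 : (x.2.1 : E.carrier) = 0 := by
        have h8 : (x.2.1 : E.carrier) = -(φ x.2.2 : E.carrier) := eq_neg_of_add_eq_zero_left h5
        exact (Submodule.disjoint_def.mp hFC) _ x.2.1.2 (by rw [h8]; exact C.neg_mem (φ x.2.2).2)
      have h9 : (φ x.2.2 : E.carrier) = 0 := by rw [h7, zero_add] at h5; exact h5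
      have h6 : x.2.2 = 0 := by
        have : φ x.2.2 = 0 := Subtype.ext h9
        exact (LinearEquiv.map_eq_zero_iff φ).mp this
      rw [Submodule.mem_bot]
      exact Prod.ext h4 (Prod.ext (Subtype.ext h7) h6)
    · intro v
      have hv : v ∈ Submodule.span ℂ {e} ⊔ (F ⊔ C) := by rw [hcompl.sup_eq_top]; trivial
      rw [Submodule.mem_sup] at hv
      obtain ⟨p, hp, w, hw, rfl⟩ := hv
      rw [Submodule.mem_span_singleton] at hp
      obtain ⟨a, rfl⟩ := hp
      rw [Submodule.mem_sup] at hw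
      obtain ⟨f, hf, w, hw, rfl⟩ := hw
      refine ⟨(a, (⟨f, hf⟩, φ.symm ⟨w, hw⟩)), ?_⟩
      rw [hg]
      simp
  have hF0 : ∀ f : F, E.mul e f = 0 := fun f => heW _ (Submodule.mem_sup_left f.2)
  have hF1 : ∀ f : F, E.mul f e = 0 := fun f => by rw [hc, hF0]
  have hC0 : ∀ w : C, E.mul e w = 0 := fun w => by rw [hc, hCm _ w.2]
  have hC1 : ∀ (w : C) (y : E.carrier), E.mul w y = 0 := fun w y => hCm _ w.2 y
  have hC2 : ∀ (w : C) (y : E.carrier), E.mul y w = 0 := fun w y => by rw [hc, hC1]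
  have hmul : ∀ x y : ℂ × (F × (Fin m → ℂ)),
      g (x.1 * y.1, ((⟨E.mul x.2.1 y.2.1, hF _ x.2.1.2 _ y.2.1.2⟩ : F), 0)) = E.mul (g x) (g y) := by
    intro x y
    rw [hg, hg, hg]
    simp only [map_add, LinearMap.add_apply, map_smul, LinearMap.smul_apply, hee, map_zero,
      ZeroMemClass.coe_zero, add_zero, zero_add, hC1, hC2, hF0, hF1, smul_zero, smul_smul]
    rw [mul_comm x.1 y.1]
  exact ⟨LinearEquiv.ofBijective g hbij, fun x y => hmul x y⟩

/-- The classification. -/
theorem classify (n : ℕ) (E : CAlg) (hE : IsEvo n E.mul) (hP : CondP E.mul) (hn : ¬ IsNilp E.mul) :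
    Iso E (dsum ES1 (null (n - 1))) ∨
      ∃ s, 2 ≤ s ∧ s ≤ n - 1 ∧ ∃ F, InZN s F ∧ Iso E (dsum ES1 (dsum F (null (n - s - 1)))) := by
  classical
  obtain ⟨b, hb⟩ := hE
  have hfd : FiniteDimensional ℂ E.carrier := Module.Finite.of_basis b
  have hfr : finrank ℂ E.carrier = n := by rw [finrank_eq_card_basis b, Fintype.card_fin]
  have hc := mul_comm' hb
  have hnn : ∀ K, U E.mul K ≠ ⊤ := by
    intro K h
    have h1 : U E.mul (K + 1) = ⊤ := top_le_iff.mp (h ▸ U_le_succ K)
    exact hn ⟨_, Nat.le_add_left 1 _, pw_eq_bot_of_U hc (Nat.le_add_left 1 _) h1⟩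
  obtain ⟨e, K, hK, hst, hee, heW, hcompl⟩ := structure_thm hb hP hnn
  have he0 : e ≠ 0 := by
    rintro rfl
    apply hnn K
    have := hcompl.sup_eq_top
    rwa [Submodule.span_zero_singleton, bot_sup_eq] at this
  have hdim : finrank ℂ (Submodule.span ℂ {e}) + finrank ℂ (U E.mul K) = n := by
    rw [Submodule.finrank_add_eq_of_isCompl hcompl, hfr]
  have h1 : finrank ℂ (Submodule.span ℂ {e}) = 1 := finrank_span_singleton he0
  by_cases hcase : U E.mul K ≤ U E.mul 1
  · left
    exact iso_one E hc he0 hee heW hcase hcompl (by omega)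
  · right
    have hex : ∃ L, U E.mul K ≤ U E.mul L := ⟨K, le_rfl⟩
    set L := Nat.find hex with hL
    have hL1 : U E.mul K ≤ U E.mul L := Nat.find_spec hex
    have hLK : L ≤ K := Nat.find_min' hex le_rfl
    have hLeq : U E.mul L = U E.mul K := le_antisymm (U_mono hLK) hL1
    have hL2 : 2 ≤ L := by
      by_contra hcon
      apply hcase
      exact hL1.trans (U_mono (by omega))
    have hLmin : ¬ U E.mul K ≤ U E.mul (L - 1) := Nat.find_min hex (by omega)
    obtain ⟨F, C, hCU, hSF, hFC, hdisj, hdC⟩ := exists_split hb hP (K := L) (by omega)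
    have hFL : F ≤ U E.mul L := by rw [← hFC]; exact le_sup_left
    have hF : IsSub E.mul F := fun x hx y _ => hSF (mul_mem_S hb (hFL hx) y)
    have hdsum : finrank ℂ F + finrank ℂ C = n - 1 := by
      have h2 := Submodule.finrank_sup_add_finrank_inf_eq F C
      rw [hdisj.eq_bot, finrank_bot, hFC, hLeq] at h2
      omega
    have hdF : finrank ℂ F ≤ L := by
      have h3 := finrank_U_le hb hP (L - 1)
      rw [Nat.sub_add_cancel (by omega), hLeq] at h3
      omega
    set s := finrank ℂ F with hs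
    have hiso := iso_two E hc he0 hee hF (C := C) (by rw [hFC, hLeq]; exact heW) hCU hdisj
      (by rw [hFC, hLeq]; exact hcompl) (m := n - s - 1) (by omega)
    -- the algebra `F`
    have hevo : IsEvo s (subAlg E F hF).mul := by
      obtain ⟨φ, hφ⟩ := hiso
      let π : E.carrier →ₗ[ℂ] (subAlg E F hF).carrier :=
        (LinearMap.fst ℂ (subAlg E F hF).carrier (null (n - s - 1)).carrier) ∘ₗ
          (LinearMap.snd ℂ ES1.carrier ((subAlg E F hF).carrier × (null (n - s - 1)).carrier)) ∘ₗ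
          φ.toLinearMap
      have hπ : ∀ x, π x = (φ x).2.1 := fun x => rfl
      refine isEvo_of_surj hb π ?_ ?_
      · intro f
        obtain ⟨x, hx⟩ := φ.surjective ((0 : ℂ), (f, (0 : Fin (n - s - 1) → ℂ)))
        refine ⟨x, ?_⟩
        rw [hπ, hx]
      · intro x y
        rw [hπ, hπ, hπ, hφ]
        rfl
    have hcF : ∀ x y, (subAlg E F hF).mul x y = (subAlg E F hF).mul y x := by
      obtain ⟨b', hb'⟩ := hevo
      exact mul_comm' hb'
    have hUF : U (subAlg E F hF).mul L = ⊤ := by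
      rw [eq_top_iff]
      intro x _
      exact subAlg_U E F hF L (show F from x) (hFL (show F from x).2)
    have hnil : IsNilp (subAlg E F hF).mul :=
      ⟨_, Nat.le_add_left 1 _, pw_eq_bot_of_U hcF (by omega) hUF⟩
    obtain ⟨y, hyF, hyU⟩ : ∃ y ∈ F, y ∉ U E.mul (L - 1) := by
      by_contra hcon
      push Not at hcon
      apply hLmin
      rw [← hLeq, ← hFC]
      exact sup_le (fun y hy => hcon y hy) (hCU.trans (U_mono (by omega)))
    have hlow : 2 ^ (L - 1) + 1 ≤ nilIndex (subAlg E F hF).mul := by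
      refine lt_nilIndex_of_sq hnil (y := (⟨y, hyF⟩ : F)) ?_
      intro h0
      have h2 := sq_iter_notMem hb hP (L - 1) 0 (y := y) (by rwa [add_zero])
      apply h2
      rw [mem_U_zero, ← subAlg_sq E F hF ⟨y, hyF⟩]
      exact congrArg (fun v : F => (v : E.carrier)) h0
    have hs1 : 1 ≤ s := by
      rw [Nat.one_le_iff_ne_zero]
      intro h0
      rw [hs, Submodule.finrank_eq_zero] at h0
      rw [h0, Submodule.mem_bot] at hyF
      rw [hyF] at hyU
      exact hyU (Submodule.zero_mem _)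
    have hup := nilIndex_le_of_evo hs1 hevo hnil
    have hLs : L - 1 ≤ s - 1 := by
      have h4 : 2 ^ (L - 1) ≤ 2 ^ (s - 1) := by omega
      exact (Nat.pow_le_pow_iff_right (by norm_num)).mp h4
    refine ⟨s, by omega, by omega, subAlg E F hF, ⟨hevo, hnil, ?_⟩, hiso⟩
    intro B hB hBn
    refine (nilIndex_le_of_evo hs1 hB hBn).trans (le_trans ?_ hlow)
    have h5 : 2 ^ (s - 1) ≤ 2 ^ (L - 1) := Nat.pow_le_pow_right (by norm_num) (by omega)
    omega

end Pool.Agent.Q11.Evo
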