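import Mathlib
import Pool.Agent.Q11.Evo.Main

/-!
# The listed algebras are pairwise non-isomorphic
-/

set_option autoImplicit false

namespace Pool.Agent.Q11.Evo

open Module

/-- A more precise form of `pw_eq_bot_of_U`. -/
lemma pw_le_U {V : Type*} [AddCommGroup V] [Module ℂ V] {μ : V →ₗ[ℂ] V →ₗ[ℂ] V}
    (hc : ∀ x y, μ x y = μ y x) {K : ℕ} (hK : 1 ≤ K) (h : U μ K = ⊤) :
    ∀ j, j ≤ K - 1 → pw μ (2 ^ j + 1) ≤ U μ (K - 1 - j) := by
  intro j
  induction j with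
  | zero =>
    intro _
    refine pw_le (by norm_num) ?_
    intro i j _ _ _ x _ y _
    have hx : x ∈ U μ (K - 1 + 1) := by
      have : K - 1 + 1 = K := by omega
      rw [this, h]; trivial
    have := hx y
    simpa using this
  | succ j ih =>
    intro hj
    have ih := ih (by omega)
    have hlev : K - 1 - j = (K - 1 - (j + 1)) + 1 := by omega
    refine pw_le (by have : 1 ≤ 2 ^ (j + 1) := Nat.one_le_two_pow; omega) ?_
    intro a c ha hc' hac x hx y hy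
    have hpow : 2 ^ (j + 1) = 2 ^ j + 2 ^ j := by ring
    rcases Nat.lt_or_ge a (2 ^ j + 1) with hlt | hge
    · have hy' : y ∈ U μ (K - 1 - j) := ih (pw_anti (by omega : 2 ^ j + 1 ≤ c) hy)
      rw [hlev] at hy'
      rw [hc]
      exact hy' x
    · have hx' : x ∈ U μ (K - 1 - j) := ih (pw_anti hge hx)
      rw [hlev] at hx'
      exact hx' y

section hom

variable {V W : Type*} [AddCommGroup V] [Module ℂ V] [AddCommGroup W] [Module ℂ W]
    {μ : V →ₗ[ℂ] V →ₗ[ℂ] V} {ν : W →ₗ[ℂ] W →ₗ[ℂ] W}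

lemma hom_pw (f : V →ₗ[ℂ] W) (hf : ∀ x y, f (μ x y) = ν (f x) (f y)) (k : ℕ) :
    pw μ k ≤ (pw ν k).comap f := by
  induction k using Nat.strong_induction_on with
  | _ k ih =>
    rcases Nat.lt_or_ge k 2 with h | h
    · have : pw ν k = ⊤ := by
        rcases (by omega : k = 0 ∨ k = 1) with rfl | rfl
        · exact pw_zero
        · exact pw_one
      rw [this]; exact le_top
    · refine pw_le h ?_
      intro i j hi hj hij x hx y hy
      rw [Submodule.mem_comap, hf, ← hij]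
      exact mul_mem_pw hi hj (ih i (by omega) hx) (ih j (by omega) hy)

lemma hom_sq (f : V →ₗ[ℂ] W) (hf : ∀ x y, f (μ x y) = ν (f x) (f y)) (y : V) (j : ℕ) :
    f (sq μ y j) = sq ν (f y) j := by
  induction j with
  | zero => rfl
  | succ j ih => rw [sq, sq, hf, ih]

lemma nilIndex_le_of_inj (f : V →ₗ[ℂ] W) (hf : ∀ x y, f (μ x y) = ν (f x) (f y))
    (hinj : Function.Injective f) (hν : IsNilp ν) : nilIndex μ ≤ nilIndex ν := by
  obtain ⟨h1, h2⟩ := nilIndex_spec hν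
  refine nilIndex_le h1 ?_
  rw [eq_bot_iff]
  intro x hx
  have := hom_pw f hf _ hx
  rw [Submodule.mem_comap, h2, Submodule.mem_bot] at this
  rw [Submodule.mem_bot]
  exact hinj (by rw [this, map_zero])

lemma exists_sq_eq_zero (hμ : IsNilp μ) : ∃ J, ∀ y, sq μ y J = 0 := by
  obtain ⟨m, _, hm⟩ := hμ
  refine ⟨m, fun y => ?_⟩
  have h1 := pw_anti (μ := μ) (Nat.lt_two_pow_self (n := m)).le (sq_mem_pw y m)
  rwa [hm, Submodule.mem_bot] at h1

end hom

/-- The product of `EN_s`: `e_i e_i = e_{i+1}`. -/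
def enMul (s : ℕ) : (Fin s → ℂ) →ₗ[ℂ] (Fin s → ℂ) →ₗ[ℂ] (Fin s → ℂ) :=
  LinearMap.mk₂ ℂ
    (fun x y k => if k.val = 0 then 0 else
      x ⟨k.val - 1, by omega⟩ * y ⟨k.val - 1, by omega⟩)
    (by intro x x' y; funext k; simp only [Pi.add_apply]; split_ifs <;> ring)
    (by intro c x y; funext k; simp only [Pi.smul_apply, smul_eq_mul]; split_ifs <;> ring)
    (by intro x y y'; funext k; simp only [Pi.add_apply]; split_ifs <;> ring)
    (by intro c x y; funext k; simp only [Pi.smul_apply, smul_eq_mul]; split_ifs <;> ring)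

lemma enMul_apply (s : ℕ) (x y : Fin s → ℂ) (k : Fin s) :
    enMul s x y k = if k.val = 0 then 0 else
      x ⟨k.val - 1, by omega⟩ * y ⟨k.val - 1, by omega⟩ := rfl

lemma en_evo (s : ℕ) : IsEvo s (enMul s) := by
  refine ⟨Pi.basisFun ℂ (Fin s), ?_⟩
  intro i j hij
  funext k
  rw [enMul_apply]
  split_ifs with h
  · rfl
  · rw [Pi.basisFun_apply, Pi.basisFun_apply, Pi.single_apply, Pi.single_apply]
    by_cases h1 : (⟨k.val - 1, by omega⟩ : Fin s) = i
    · have h2 : (⟨k.val - 1, by omega⟩ : Fin s) ≠ j := by rw [h1]; exact hij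
      rw [if_neg h2, mul_zero]; rfl
    · rw [if_neg h1, zero_mul]; rfl

lemma en_comm (s : ℕ) : ∀ x y, enMul s x y = enMul s y x := by
  obtain ⟨b, hb⟩ := en_evo s
  exact mul_comm' hb

lemma en_U (s : ℕ) : U (enMul s) s = ⊤ := by
  have key : ∀ k, ∀ x : Fin s → ℂ, (∀ i : Fin s, i.val + k < s → x i = 0) → x ∈ U (enMul s) k := by
    intro k
    induction k with
    | zero =>
      intro x hx
      rw [mem_U_zero]
      funext i
      exact hx i (by rw [add_zero]; exact i.2)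
    | succ k ih =>
      intro x hx y
      refine ih _ ?_
      intro i hi
      rw [enMul_apply]
      split_ifs with h
      · rfl
      · rw [hx _ (by simp only; omega), zero_mul]
  rw [eq_top_iff]
  intro x _
  exact key s x (fun i hi => absurd hi (by omega))

lemma en_sq {s : ℕ} (hs : 0 < s) (j : ℕ) (hj : j < s) :
    sq (enMul s) (Pi.single (⟨0, hs⟩ : Fin s) (1 : ℂ)) j = Pi.single ⟨j, hj⟩ 1 := by
  induction j with
  | zero => rfl
  | succ j ih =>
    rw [sq, ih (by omega)]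
    funext k
    rw [enMul_apply, Pi.single_apply, Pi.single_apply]
    by_cases h : k.val = 0
    · rw [if_pos h, if_neg]
      intro h'
      rw [h'] at h
      exact absurd h (Nat.succ_ne_zero j)
    · rw [if_neg h]
      by_cases h2 : k.val = j + 1
      · rw [if_pos (Fin.ext (by simp only; omega)), if_pos (Fin.ext (by simp only; omega)), one_mul]
      · rw [if_neg (fun h3 => h2 (by have := congrArg Fin.val h3; simp only at this; omega)),
          if_neg (fun h3 => h2 (by have := congrArg Fin.val h3; simpa using this)), zero_mul]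

lemma en_nilp (s : ℕ) (hs : 1 ≤ s) : IsNilp (enMul s) :=
  ⟨_, Nat.le_add_left 1 _, pw_eq_bot_of_U (en_comm s) hs (en_U s)⟩

lemma en_index (s : ℕ) (hs : 1 ≤ s) : 2 ^ (s - 1) + 1 ≤ nilIndex (enMul s) := by
  refine lt_nilIndex_of_sq (en_nilp s hs) (y := Pi.single (⟨0, by omega⟩ : Fin s) (1 : ℂ)) ?_
  intro h
  rw [en_sq (by omega : 0 < s) (s - 1) (by omega)] at h
  have h3 := congrFun h ⟨s - 1, by omega⟩
  rw [Pi.single_eq_same] at h3
  exact one_ne_zero h3

/-- The algebra `EN_s`: `e_i e_i = e_{i+1}`. -/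
def EN (s : ℕ) : CAlg where
  carrier := Fin s → ℂ
  mul := enMul s

lemma nilIndex_of_InZN {s : ℕ} (hs : 1 ≤ s) {A : CAlg} (hA : InZN s A) :
    nilIndex A.mul = 2 ^ (s - 1) + 1 := by
  refine le_antisymm (nilIndex_le_of_evo hs hA.1 hA.2.1) ?_
  exact (en_index s hs).trans (hA.2.2 (EN s) (en_evo s) (en_nilp s hs))

lemma exists_sq_ne {s : ℕ} (hs : 2 ≤ s) {A : CAlg} (hA : InZN s A) : ∃ y, A.mul y y ≠ 0 := by
  by_contra hcon
  push Not at hcon
  obtain ⟨b, hb⟩ := hA.1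
  have h0 : ∀ x y, A.mul x y = 0 := by
    intro x y
    rw [mul_eq hb]
    refine Finset.sum_eq_zero fun i _ => ?_
    rw [hcon, smul_zero]
  have h1 : pw A.mul 2 = ⊥ := by
    rw [eq_bot_iff]
    refine pw_le le_rfl ?_
    intro i j _ _ _ x _ y _
    rw [h0]; exact Submodule.zero_mem _
  have h2 := nilIndex_le (by norm_num) h1
  rw [nilIndex_of_InZN (by omega) hA] at h2
  have h3 : 2 ^ 1 ≤ 2 ^ (s - 1) := Nat.pow_le_pow_right (by norm_num) (by omega)
  omega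

lemma finrank_U' {V : Type*} [AddCommGroup V] [Module ℂ V] {μ : V →ₗ[ℂ] V →ₗ[ℂ] V}
    [FiniteDimensional ℂ V] (hnil : IsNilp μ) (k : ℕ) :
    U μ (k + 1) = ⊤ ∨ finrank ℂ (U μ 1) + k ≤ finrank ℂ (U μ (k + 1)) := by
  induction k with
  | zero => right; exact le_rfl
  | succ k ih =>
    rcases ih with ih | ih
    · left
      exact top_le_iff.mp (ih ▸ U_le_succ (k + 1))
    · by_cases hst : U μ (k + 1) = U μ (k + 1 + 1)
      · left
        rw [← hst]; exact U_eq_top_of_stable hnil hst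
      · right
        have hlt : U μ (k + 1) < U μ (k + 1 + 1) := lt_of_le_of_ne (U_le_succ _) hst
        have := Submodule.finrank_lt_finrank_of_lt hlt
        omega

/-- In an algebra of `ZN^s`, `s ≥ 2`, annihilating elements lie in the square. -/
lemma ann_le {s : ℕ} (hs : 2 ≤ s) {A : CAlg} (hA : InZN s A) : U A.mul 1 ≤ pw A.mul 2 := by
  obtain ⟨b, hb⟩ := hA.1
  have hfd : FiniteDimensional ℂ A.carrier := Module.Finite.of_basis b
  have hfr : finrank ℂ A.carrier = s := by rw [finrank_eq_card_basis b, Fintype.card_fin]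
  have hc := mul_comm' hb
  have hidx := nilIndex_of_InZN (by omega) hA
  have hpow : 2 ^ (s - 1) = 2 ^ (s - 2) + 2 ^ (s - 2) := by
    have : s - 1 = (s - 2) + 1 := by omega
    rw [this, pow_succ]; ring
  have hpos : 1 ≤ 2 ^ (s - 2) := Nat.one_le_two_pow
  have hUs : U A.mul s = ⊤ := by
    have := U_finrank_eq_top hA.2.1
    rwa [hfr] at this
  have hne : pw A.mul (2 ^ (s - 1)) ≠ ⊥ := by
    intro h
    have := nilIndex_le Nat.one_le_two_pow h
    omega
  have h1 : pw A.mul (2 ^ (s - 1)) ≤ U A.mul 1 := by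
    have h2 := pw_le_U hc (by omega) hUs (s - 2) (by omega)
    have e : s - 1 - (s - 2) = 1 := by omega
    rw [e] at h2
    exact (pw_anti (by omega)).trans h2
  have h2 : pw A.mul (2 ^ (s - 1)) ≤ pw A.mul 2 := pw_anti (by omega)
  have hdim : finrank ℂ (U A.mul 1) ≤ 1 := by
    by_contra hcon
    have h3 : U A.mul (s - 2 + 1) = ⊤ := by
      rcases finrank_U' hA.2.1 (s - 2) with h4 | h4
      · exact h4
      · refine Submodule.eq_top_of_finrank_eq (le_antisymm (Submodule.finrank_le _) ?_)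
        rw [hfr]; omega
    have h4 := nilIndex_le (Nat.le_add_left 1 _) (pw_eq_bot_of_U hc (by omega) h3)
    have e : s - 2 + 1 - 1 = s - 2 := by omega
    rw [e] at h4
    omega
  obtain ⟨z, hz, hz0⟩ := Submodule.exists_mem_ne_zero_of_ne_bot hne
  obtain ⟨v, hv⟩ := finrank_le_one_iff.mp hdim
  intro x hx
  obtain ⟨c, hc1⟩ := hv ⟨z, h1 hz⟩
  obtain ⟨d, hd⟩ := hv ⟨x, hx⟩
  have hc0 : c ≠ 0 := by
    rintro rfl
    rw [zero_smul] at hc1
    exact hz0 (congrArg Subtype.val hc1).symm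
  have h5 : x = (d * c⁻¹) • z := by
    have e1 : z = c • (v : A.carrier) := (congrArg Subtype.val hc1).symm
    have e2 : x = d • (v : A.carrier) := (congrArg Subtype.val hd).symm
    rw [e1, e2, smul_smul, mul_assoc, inv_mul_cancel₀ hc0, mul_one]
  rw [h5]
  exact Submodule.smul_mem _ _ (h2 hz)

section sums

variable {V W : Type*} [AddCommGroup V] [Module ℂ V] [AddCommGroup W] [Module ℂ W]

/-- Direct sum of products. -/
def sumMul (μ : V →ₗ[ℂ] V →ₗ[ℂ] V) (ν : W →ₗ[ℂ] W →ₗ[ℂ] W) :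
    (V × W) →ₗ[ℂ] (V × W) →ₗ[ℂ] (V × W) :=
  LinearMap.mk₂ ℂ (fun x y => (μ x.1 y.1, ν x.2 y.2))
    (by intro x x' y; simp) (by intro c x y; simp) (by intro x y y'; simp) (by intro c x y; simp)

lemma sumMul_apply (μ : V →ₗ[ℂ] V →ₗ[ℂ] V) (ν : W →ₗ[ℂ] W →ₗ[ℂ] W) (x y : V × W) :
    sumMul μ ν x y = (μ x.1 y.1, ν x.2 y.2) := rfl

/-- `ν` nilpotent: the first components are determined by the nonzero idempotent. -/
lemma fst_eq_zero {W' : Type*} [AddCommGroup W'] [Module ℂ W']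
    {ν : W →ₗ[ℂ] W →ₗ[ℂ] W} {ν' : W' →ₗ[ℂ] W' →ₗ[ℂ] W'} (hν' : IsNilp ν')
    (φ : (ℂ × W) ≃ₗ[ℂ] (ℂ × W'))
    (hφ : ∀ x y, φ (sumMul (LinearMap.mul ℂ ℂ) ν x y) = sumMul (LinearMap.mul ℂ ℂ) ν' (φ x) (φ y)) :
    φ (1, 0) = (1, 0) ∧ ∀ y, (φ (0, y)).1 = 0 := by
  have he : φ (1, 0) = (1, 0) := by
    have h1 := hφ (1, 0) (1, 0)
    rw [sumMul_apply, sumMul_apply] at h1
    simp only [LinearMap.mul_apply', mul_one, map_zero] at h1
    have h2 : (φ (1, 0)).1 = (φ (1, 0)).1 * (φ (1, 0)).1 := congrArg Prod.fst h1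
    have h3 : (φ (1, 0)).2 = ν' (φ (1, 0)).2 (φ (1, 0)).2 := congrArg Prod.snd h1
    obtain ⟨J, hJ⟩ := exists_sq_eq_zero hν'
    have h4 : ∀ j, sq ν' (φ (1, 0)).2 j = (φ (1, 0)).2 := by
      intro j
      induction j with
      | zero => rfl
      | succ j ih => rw [sq, ih, ← h3]
    have h5 : (φ (1, 0)).2 = 0 := by rw [← h4 J]; exact hJ _
    have h6 : (φ (1, 0)).1 ≠ 0 := by
      intro h6
      have h7 : φ (1, 0) = 0 := Prod.ext h6 h5
      rw [LinearEquiv.map_eq_zero_iff] at h7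
      exact one_ne_zero (congrArg Prod.fst h7)
    have h8 : (φ (1, 0)).1 = 1 := by
      have := mul_right_cancel₀ h6 (by rw [one_mul]; exact h2 : 1 * (φ (1, 0)).1 = (φ (1, 0)).1 * (φ (1, 0)).1)
      exact this.symm
    exact Prod.ext h8 h5
  refine ⟨he, fun y => ?_⟩
  have h1 := hφ (1, 0) (0, y)
  rw [sumMul_apply, sumMul_apply, he] at h1
  simp only [LinearMap.mul_apply', mul_zero, map_zero, LinearMap.zero_apply, one_mul] at h1
  have h2 := congrArg Prod.fst h1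
  simp only at h2
  rw [← h2]
  change (φ 0).1 = 0
  rw [map_zero]
  rfl

/-- Cancelling `ES₁`. -/
lemma cancel_ES1 {W' : Type*} [AddCommGroup W'] [Module ℂ W']
    {ν : W →ₗ[ℂ] W →ₗ[ℂ] W} {ν' : W' →ₗ[ℂ] W' →ₗ[ℂ] W'} (hν : IsNilp ν) (hν' : IsNilp ν')
    (φ : (ℂ × W) ≃ₗ[ℂ] (ℂ × W'))
    (hφ : ∀ x y, φ (sumMul (LinearMap.mul ℂ ℂ) ν x y) = sumMul (LinearMap.mul ℂ ℂ) ν' (φ x) (φ y)) :
    ∃ g : W ≃ₗ[ℂ] W', ∀ x y, g (ν x y) = ν' (g x) (g y) := by
  have hφ' : ∀ x y, φ.symm (sumMul (LinearMap.mul ℂ ℂ) ν' x y) =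
      sumMul (LinearMap.mul ℂ ℂ) ν (φ.symm x) (φ.symm y) := by
    intro x y
    rw [LinearEquiv.symm_apply_eq, hφ, φ.apply_symm_apply, φ.apply_symm_apply]
  have h1 := (fst_eq_zero hν' φ hφ).2
  have h2 := (fst_eq_zero hν φ.symm hφ').2
  let g : W →ₗ[ℂ] W' := (LinearMap.snd ℂ ℂ W') ∘ₗ φ.toLinearMap ∘ₗ (LinearMap.inr ℂ ℂ W)
  have hg : ∀ w, g w = (φ (0, w)).2 := fun w => rfl
  have hg2 : ∀ w, φ (0, w) = (0, g w) := fun w => Prod.ext (h1 w) rfl
  have hbij : Function.Bijective g := by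
    constructor
    · rw [← LinearMap.ker_eq_bot, eq_bot_iff]
      intro w hw
      rw [LinearMap.mem_ker] at hw
      have h3 := hg2 w
      rw [hw] at h3
      have h4 : φ (0, w) = 0 := h3
      rw [LinearEquiv.map_eq_zero_iff] at h4
      rw [Submodule.mem_bot]
      exact congrArg Prod.snd h4
    · intro w'
      refine ⟨(φ.symm (0, w')).2, ?_⟩
      have h3 : φ.symm (0, w') = (0, (φ.symm (0, w')).2) := Prod.ext (h2 w') rfl
      rw [hg, ← h3, φ.apply_symm_apply]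
  refine ⟨LinearEquiv.ofBijective g hbij, ?_⟩
  intro x y
  rw [LinearEquiv.ofBijective_apply, LinearEquiv.ofBijective_apply, LinearEquiv.ofBijective_apply]
  have h3 := hφ (0, x) (0, y)
  rw [sumMul_apply, sumMul_apply] at h3
  simp only [LinearMap.mul_apply', mul_zero] at h3
  exact congrArg Prod.snd h3

lemma pw_sum_two (μ : V →ₗ[ℂ] V →ₗ[ℂ] V) {x : V × W} {k : ℕ} (hk : 2 ≤ k)
    (hx : x ∈ pw (sumMul μ (0 : W →ₗ[ℂ] W →ₗ[ℂ] W)) k) : x.2 = 0 := by
  have h1 : pw (sumMul μ (0 : W →ₗ[ℂ] W →ₗ[ℂ] W)) 2 ≤ LinearMap.ker (LinearMap.snd ℂ V W) := by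
    refine pw_le le_rfl ?_
    intro i j _ _ _ x _ y _
    rfl
  exact h1 (pw_anti hk hx)

lemma pw_sum_eq_bot (μ : V →ₗ[ℂ] V →ₗ[ℂ] V) {k : ℕ} (hk : 2 ≤ k) (h : pw μ k = ⊥) :
    pw (sumMul μ (0 : W →ₗ[ℂ] W →ₗ[ℂ] W)) k = ⊥ := by
  rw [eq_bot_iff]
  intro x hx
  rw [Submodule.mem_bot]
  refine Prod.ext ?_ (pw_sum_two μ hk hx)
  have h1 := hom_pw (μ := sumMul μ (0 : W →ₗ[ℂ] W →ₗ[ℂ] W)) (ν := μ) (LinearMap.fst ℂ V W)
    (fun x y => rfl) k hx
  rw [h] at h1
  exact h1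

end sums

end Pool.Agent.Q11.Evo
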