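import Mathlib
import Pool.Agent.Q11.Evo.Noniso

/-!
# The listed algebras are pairwise non-isomorphic: conclusion
-/

set_option autoImplicit false

namespace Pool.Agent.Q11.Evo

open Module

section

variable {V V' : Type*} [AddCommGroup V] [Module ℂ V] [AddCommGroup V'] [Module ℂ V']
  {μ : V →ₗ[ℂ] V →ₗ[ℂ] V} {μ' : V' →ₗ[ℂ] V' →ₗ[ℂ] V'}

lemma index_le {m m' : ℕ} (hμ' : IsNilp μ') (h2 : 2 ≤ nilIndex μ')
    (φ : (V × (Fin m → ℂ)) ≃ₗ[ℂ] (V' × (Fin m' → ℂ)))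
    (hφ : ∀ x y, φ (sumMul μ 0 x y) = sumMul μ' 0 (φ x) (φ y)) : nilIndex μ ≤ nilIndex μ' := by
  have h3 : pw (sumMul μ' (0 : (Fin m' → ℂ) →ₗ[ℂ] (Fin m' → ℂ) →ₗ[ℂ] (Fin m' → ℂ)))
      (nilIndex μ') = ⊥ := pw_sum_eq_bot μ' h2 (nilIndex_spec hμ').2
  have h4 : IsNilp (sumMul μ' (0 : (Fin m' → ℂ) →ₗ[ℂ] (Fin m' → ℂ) →ₗ[ℂ] (Fin m' → ℂ))) :=
    ⟨_, by omega, h3⟩
  refine le_trans (nilIndex_le_of_inj (φ.toLinearMap ∘ₗ LinearMap.inl ℂ V (Fin m → ℂ)) ?_ ?_ h4)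
    (nilIndex_le (by omega) h3)
  · intro x y
    have := hφ (x, 0) (y, 0)
    rw [sumMul_apply] at this
    simp only [map_zero, LinearMap.zero_apply] at this
    exact this
  · exact φ.injective.comp (LinearMap.inl_injective)

lemma cancel_null {s s' m m' : ℕ} (hs : 2 ≤ s) (hs' : 2 ≤ s') (hμ : IsNilp μ) (hμ' : IsNilp μ')
    (hi : nilIndex μ = 2 ^ (s - 1) + 1) (hi' : nilIndex μ' = 2 ^ (s' - 1) + 1)
    [FiniteDimensional ℂ V] [FiniteDimensional ℂ V']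
    (hd : finrank ℂ V = s) (hd' : finrank ℂ V' = s') (hann : U μ 1 ≤ pw μ 2)
    (φ : (V × (Fin m → ℂ)) ≃ₗ[ℂ] (V' × (Fin m' → ℂ)))
    (hφ : ∀ x y, φ (sumMul μ 0 x y) = sumMul μ' 0 (φ x) (φ y)) :
    s = s' ∧ m = m' ∧ ∃ g : V ≃ₗ[ℂ] V', ∀ x y, g (μ x y) = μ' (g x) (g y) := by
  have hp : 1 ≤ 2 ^ (s - 1) := Nat.one_le_two_pow
  have hp' : 1 ≤ 2 ^ (s' - 1) := Nat.one_le_two_pow
  have hφ' : ∀ x y, φ.symm (sumMul μ' 0 x y) = sumMul μ 0 (φ.symm x) (φ.symm y) := by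
    intro x y
    rw [LinearEquiv.symm_apply_eq, hφ, φ.apply_symm_apply, φ.apply_symm_apply]
  have h1 := index_le hμ' (by omega) φ hφ
  have h2 := index_le hμ (by omega) φ.symm hφ'
  have h3 : 2 ^ (s - 1) = 2 ^ (s' - 1) := by omega
  have h4 : s - 1 = s' - 1 := Nat.pow_right_injective (le_refl 2) h3
  have hss : s = s' := by omega
  have hm : m = m' := by
    have h5 := φ.finrank_eq
    rw [finrank_prod, finrank_prod, finrank_fin_fun, finrank_fin_fun, hd, hd'] at h5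
    omega
  refine ⟨hss, hm, ?_⟩
  let g : V →ₗ[ℂ] V' := (LinearMap.fst ℂ V' (Fin m' → ℂ)) ∘ₗ φ.toLinearMap ∘ₗ
    (LinearMap.inl ℂ V (Fin m → ℂ))
  have hg : ∀ x, g x = (φ (x, 0)).1 := fun x => rfl
  have hmul : ∀ x y, g (μ x y) = μ' (g x) (g y) := by
    intro x y
    have := hφ (x, 0) (y, 0)
    rw [sumMul_apply] at this
    simp only [map_zero, LinearMap.zero_apply] at this
    exact congrArg Prod.fst this
  have hinj : Function.Injective g := by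
    rw [← LinearMap.ker_eq_bot, eq_bot_iff]
    intro x hx
    rw [LinearMap.mem_ker, hg] at hx
    -- `x` annihilates
    have h6 : x ∈ U μ 1 := by
      intro y
      rw [mem_U_zero]
      have h7 := hφ (x, 0) (y, 0)
      rw [sumMul_apply, sumMul_apply] at h7
      simp only [map_zero, LinearMap.zero_apply, hx] at h7
      have h8 : φ (μ x y, 0) = 0 := h7
      rw [LinearEquiv.map_eq_zero_iff] at h8
      exact congrArg Prod.fst h8
    have h7 : x ∈ pw μ 2 := hann h6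
    have h8 : (φ (x, 0)).2 = 0 := by
      have h9 := hom_pw (μ := μ)
        (ν := sumMul μ' (0 : (Fin m' → ℂ) →ₗ[ℂ] (Fin m' → ℂ) →ₗ[ℂ] (Fin m' → ℂ)))
        (φ.toLinearMap ∘ₗ LinearMap.inl ℂ V (Fin m → ℂ)) (by
          intro x y
          have := hφ (x, 0) (y, 0)
          rw [sumMul_apply] at this
          simp only [map_zero, LinearMap.zero_apply] at this
          exact this) 2 h7
      exact pw_sum_two μ' le_rfl h9
    have h9 : φ (x, 0) = 0 := Prod.ext hx h8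
    rw [LinearEquiv.map_eq_zero_iff] at h9
    rw [Submodule.mem_bot]
    exact congrArg Prod.fst h9
  have hsurj : Function.Surjective g :=
    (LinearMap.injective_iff_surjective_of_finrank_eq_finrank (by rw [hd, hd', hss])).mp hinj
  exact ⟨LinearEquiv.ofBijective g ⟨hinj, hsurj⟩, fun x y => hmul x y⟩

end

lemma isNilp_sum {V : Type*} [AddCommGroup V] [Module ℂ V] {μ : V →ₗ[ℂ] V →ₗ[ℂ] V} (m : ℕ)
    (h : IsNilp μ) : IsNilp (sumMul μ (0 : (Fin m → ℂ) →ₗ[ℂ] (Fin m → ℂ) →ₗ[ℂ] (Fin m → ℂ))) := by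
  obtain ⟨k, hk, h⟩ := h
  refine ⟨k + 1, by omega, pw_sum_eq_bot μ (by omega) ?_⟩
  rw [eq_bot_iff, ← h]
  exact pw_succ_le k

theorem not_iso {s m m' : ℕ} (hs : 2 ≤ s) {F : CAlg} (hF : InZN s F) :
    ¬ Iso (dsum ES1 (null m')) (dsum ES1 (dsum F (null m))) := by
  intro hiso
  obtain ⟨φ, hφ⟩ := hiso.symm
  obtain ⟨y, hy⟩ := exists_sq_ne hs hF
  obtain ⟨J, hJ⟩ := exists_sq_eq_zero (isNilp_sum m hF.2.1)
  let ψ : (ℂ × (F.carrier × (Fin m → ℂ))) ≃ₗ[ℂ] (ℂ × (Fin m' → ℂ)) := φ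
  have hψ : ∀ x y, ψ (sumMul (LinearMap.mul ℂ ℂ) (sumMul F.mul 0) x y) =
      sumMul (LinearMap.mul ℂ ℂ) 0 (ψ x) (ψ y) := fun x y => hφ x y
  have hnull : IsNilp (0 : (Fin m' → ℂ) →ₗ[ℂ] (Fin m' → ℂ) →ₗ[ℂ] (Fin m' → ℂ)) := by
    refine ⟨2, by norm_num, ?_⟩
    rw [eq_bot_iff]
    refine pw_le le_rfl ?_
    intro i j _ _ _ x _ y _
    exact Submodule.zero_mem _
  obtain ⟨g, hg⟩ := cancel_ES1 (isNilp_sum m hF.2.1) hnull ψ hψ
  have h1 := hg (y, 0) (y, 0)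
  rw [sumMul_apply] at h1
  simp only [map_zero, LinearMap.zero_apply] at h1
  have h2 : g (F.mul y y, 0) = 0 := h1
  rw [LinearEquiv.map_eq_zero_iff] at h2
  exact hy (congrArg Prod.fst h2)

theorem iso_imp {s s' m m' : ℕ} (hs : 2 ≤ s) (hs' : 2 ≤ s') {F F' : CAlg} (hF : InZN s F)
    (hF' : InZN s' F') (hiso : Iso (dsum ES1 (dsum F (null m))) (dsum ES1 (dsum F' (null m')))) :
    s = s' ∧ m = m' ∧ Iso F F' := by
  obtain ⟨φ, hφ⟩ := hiso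
  let ψ : (ℂ × (F.carrier × (Fin m → ℂ))) ≃ₗ[ℂ] (ℂ × (F'.carrier × (Fin m' → ℂ))) := φ
  have hψ : ∀ x y, ψ (sumMul (LinearMap.mul ℂ ℂ) (sumMul F.mul 0) x y) =
      sumMul (LinearMap.mul ℂ ℂ) (sumMul F'.mul 0) (ψ x) (ψ y) := fun x y => hφ x y
  obtain ⟨g, hg⟩ := cancel_ES1 (isNilp_sum m hF.2.1) (isNilp_sum m' hF'.2.1) ψ hψ
  obtain ⟨b, hb⟩ := hF.1
  obtain ⟨b', hb'⟩ := hF'.1
  have hfd : FiniteDimensional ℂ F.carrier := Module.Finite.of_basis b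
  have hfr : finrank ℂ F.carrier = s := by rw [finrank_eq_card_basis b, Fintype.card_fin]
  have hfd' : FiniteDimensional ℂ F'.carrier := Module.Finite.of_basis b'
  have hfr' : finrank ℂ F'.carrier = s' := by rw [finrank_eq_card_basis b', Fintype.card_fin]
  exact cancel_null hs hs' hF.2.1 hF'.2.1 (nilIndex_of_InZN (by omega) hF)
    (nilIndex_of_InZN (by omega) hF') hfr hfr' (ann_le hs hF) g hg

end Pool.Agent.Q11.Evo
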